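import Mathlib

/-!
# The Galois coniveau filtration, tested at a set of places

`Γ` is the Galois group of a number field and `P` is a set of triples `(γ, p, a)`, where `γ` is an
arithmetic Frobenius element at a place whose residue field has `q = p ^ a` elements; the geometric
Frobenius element is `γ⁻¹`.
-/

namespace Pool.Agent.V5helper93.GTC

open Polynomial

variable {k W Γ : Type} [Field k] [AddCommGroup W] [Module k W] [Group Γ]

/-- The operator `T` is killed on the subspace `U` by a polynomial all roots of which are products of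
`q ^ s` with algebraic integers, `q = p ^ a`. If `U` is stable under `T` and finite dimensional this
says that all the eigenvalues of `T` on `U` are products of `q ^ s` with algebraic integers: the twist
`U(s)` is entire. -/
def EntireOn (p a s : ℕ) (T : Module.End k W) (U : Submodule k W) : Prop :=
  ∃ Q : k[X], Q.Monic ∧ (∀ u ∈ U, aeval T Q u = 0) ∧ ∀ β : AlgebraicClosure k, aeval β Q = 0 →
    IsIntegral ℤ (β / ((p : AlgebraicClosure k) ^ a) ^ s)

/-- The step `s` of the Galois coniveau filtration of the representation `τ`, tested at the places in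
`P`: the sum of the stable subspaces whose twist by `s` is entire at all places in `P`. -/
def coniv (τ : Representation k Γ W) (P : Set (Γ × ℕ × ℕ)) (s : ℕ) : Submodule k W :=
  sSup {U | (∀ g, ∀ u ∈ U, τ g u ∈ U) ∧ ∀ x ∈ P, EntireOn x.2.1 x.2.2 s (τ x.1⁻¹) U}

variable {V : Type} [AddCommGroup V] [Module k V]

/-- The map `f ↦ τ(g) ∘ f ∘ ρ(g)⁻¹`. -/
def altMap (ρ : Representation k Γ V) (τ : Representation k Γ W) (n i : ℕ) (g : Γ) :
    Module.End k ((Fin n → V) [⋀^Fin i]→ₗ[k] W) where
  toFun f := (τ g).compAlternatingMap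
    (f.compLinearMap (LinearMap.pi fun a => (ρ g⁻¹).comp (LinearMap.proj a)))
  map_add' _ _ := AlternatingMap.ext fun _ => map_add (τ g) _ _
  map_smul' c _ := AlternatingMap.ext fun _ => map_smul (τ g) c _

theorem altMap_one (ρ : Representation k Γ V) (τ : Representation k Γ W) (n i : ℕ) :
    altMap ρ τ n i 1 = 1 := by
  refine LinearMap.ext fun f => AlternatingMap.ext fun v => ?_
  change τ 1 (f fun l a => ρ 1⁻¹ (v l a)) = f v
  rw [inv_one, map_one, map_one]
  rfl

theorem altMap_mul (ρ : Representation k Γ V) (τ : Representation k Γ W) (n i : ℕ) (g h : Γ) :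
    altMap ρ τ n i (g * h) = altMap ρ τ n i g * altMap ρ τ n i h := by
  refine LinearMap.ext fun f => AlternatingMap.ext fun v => ?_
  change τ (g * h) (f fun l a => ρ (g * h)⁻¹ (v l a)) =
    τ g (τ h (f fun l a => ρ h⁻¹ (ρ g⁻¹ (v l a))))
  rw [mul_inv_rev, map_mul, map_mul]
  rfl

/-- The action of the group on the alternating forms in `i` variables on `V ^ n` with values in `W`,
`f ↦ τ(g) ∘ f ∘ ρ(g)⁻¹`. If `V = V_ℓ(J)` and `W = H ^ b (Z, ℚ_ℓ)` this is the action of the Galois
group on `H ^ i (J ^ n, ℚ_ℓ) ⊗ H ^ b (Z, ℚ_ℓ)`. -/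
def altRep (ρ : Representation k Γ V) (τ : Representation k Γ W) (n i : ℕ) :
    Representation k Γ ((Fin n → V) [⋀^Fin i]→ₗ[k] W) where
  toFun := altMap ρ τ n i
  map_one' := altMap_one ρ τ n i
  map_mul' := altMap_mul ρ τ n i

/-- The span of the forms `v ↦ h(v) • w` with `h` in `D` and `w` in `W'`. -/
def tens {n i : ℕ} (D : Submodule k ((Fin n → V) [⋀^Fin i]→ₗ[k] k)) (W' : Submodule k W) :
    Submodule k ((Fin n → V) [⋀^Fin i]→ₗ[k] W) :=
  Submodule.span k {g | ∃ h ∈ D, ∃ w ∈ W', ∀ v, g v = h v • w}

end Pool.Agent.V5helper93.GTC
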