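import Pool.Agent.V5helper93.GTC.Hyp2

/-!
# The Tate module of a hyperelliptic Jacobian is finite dimensional
-/

namespace Pool.Agent.V5helper93.GTC

open Polynomial TensorProduct Pool.Agent.N171 Pool.Agent.N171.Bg

theorem fin_of_eq {F : Type} [Field F] [IsAlgClosed F] (g : F[X]) [IsDomain (RG g)] {τ : Type}
    [Fintype τ] [DecidableEq τ] (α : τ → F) [Hyp α] (hα : g = fP α) :
    Module.Finite ℤ_[2] (TateMod 2 (ClG (RG g))) := by
  subst hα
  exact instFinP (fun _ : Unit => α) ()

variable {K F : Type} [Field K] [Field F] [Algebra K F] [IsAlgClosed F] (f : K[X]) [HypP f]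

theorem hyp_data : Hyp (fun x : f.rootSet F => (x : F)) ∧
    f.map (algebraMap K F) = fP (fun x : f.rootSet F => (x : F)) := by
  classical
  have hsp : (f.map (algebraMap K F)).Splits := IsAlgClosed.splits _
  have hm : (f.map (algebraMap K F)).Monic := (HypP.monic (f := f)).map _
  have hnd : (f.aroots F).Nodup := nodup_roots (HypP.sep (f := f)).map
  have hcard : Fintype.card (f.rootSet F) = f.natDegree :=
    card_rootSet_eq_natDegree (HypP.sep (f := f)) hsp
  have h2 : (2 : F) ≠ 0 := by
    have h1 : (2 : F) = algebraMap K F 2 := by rw [map_ofNat]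
    rw [h1, Ne, map_eq_zero]
    exact HypP.two (f := f)
  refine ⟨⟨Subtype.val_injective, ?_, h2⟩, ?_⟩
  · rw [hcard]
    exact HypP.odd (f := f)
  · rw [hsp.eq_prod_roots_of_monic hm, fP]
    have h1 : ∏ x ∈ (f.aroots F).toFinset, (X - C x) = ∏ x : f.rootSet F, (X - C (x : F)) :=
      Finset.prod_subtype _ (fun x => Iff.rfl) _
    rw [← h1, Finset.prod, Multiset.toFinset_val, Multiset.Nodup.dedup hnd]

/-- The rational 2-adic Tate module of the Jacobian of the curve `y ^ 2 = f (x)` is finite
dimensional. -/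
instance finVt : FiniteDimensional ℚ_[2] (Vt (JacP f F)) := by
  classical
  obtain ⟨h1, h2⟩ := hyp_data (F := F) f
  have h3 := fin_of_eq (f.map (algebraMap K F)) _ h2
  exact (inferInstance : FiniteDimensional ℚ_[2]
    (ℚ_[2] ⊗[ℤ_[2]] TateMod 2 (ClG (RG (f.map (algebraMap K F))))))

end Pool.Agent.V5helper93.GTC
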