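import Pool.Agent.V5helper93.GTC.WF
import Mathlib.NumberTheory.Padics.PadicNumbers

/-!
# Stable spaces of forms are stable under the tangent vectors
-/

set_option linter.unusedSectionVars false

namespace Pool.Agent.V5helper93.GTC.Der

open Module Pool.Agent.V5helper93.GTC

noncomputable section

section bnd

variable {W : Type} [AddCommGroup W] [Module ℚ_[2] W] {ν' : Type} [Fintype ν'] [DecidableEq ν']
  (c : Basis ν' ℚ_[2] W)

/-- The coordinates are bounded. -/
def Bnd (C : ℝ) (w : W) : Prop := ∀ j, ‖c.repr w j‖ ≤ C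

variable {c}

theorem Bnd.add {C : ℝ} {w w' : W} (h : Bnd c C w) (h' : Bnd c C w') : Bnd c C (w + w') := by
  intro j
  rw [map_add, Finsupp.add_apply]
  exact (Padic.nonarchimedean _ _).trans (max_le (h j) (h' j))

theorem Bnd.neg {C : ℝ} {w : W} (h : Bnd c C w) : Bnd c C (-w) := by
  intro j
  rw [map_neg, Finsupp.neg_apply, norm_neg]
  exact h j

theorem Bnd.sub {C : ℝ} {w w' : W} (h : Bnd c C w) (h' : Bnd c C w') : Bnd c C (w - w') := by
  rw [sub_eq_add_neg]
  exact h.add h'.neg

theorem Bnd.zero {C : ℝ} (hC : 0 ≤ C) : Bnd c C (0 : W) := by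
  intro j
  rw [map_zero, Finsupp.zero_apply, norm_zero]
  exact hC

theorem Bnd.sum {C : ℝ} (hC : 0 ≤ C) {X : Type} {S : Finset X} {w : X → W}
    (h : ∀ x ∈ S, Bnd c C (w x)) : Bnd c C (∑ x ∈ S, w x) := by
  classical
  induction S using Finset.induction_on with
  | empty =>
    rw [Finset.sum_empty]
    exact Bnd.zero hC
  | insert a S ha ih =>
    rw [Finset.sum_insert ha]
    exact (h a (Finset.mem_insert_self a S)).add
      (ih fun x hx => h x (Finset.mem_insert_of_mem hx))

theorem Bnd.smul {C r : ℝ} {a : ℚ_[2]} (ha : ‖a‖ ≤ r) (hr : 0 ≤ r) {w : W} (h : Bnd c C w) :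
    Bnd c (r * C) (a • w) := by
  intro j
  rw [map_smul, Finsupp.smul_apply, smul_eq_mul, norm_mul]
  exact mul_le_mul ha (h j) (norm_nonneg _) hr

theorem Bnd.smul_one {C : ℝ} {a : ℚ_[2]} (ha : ‖a‖ ≤ 1) {w : W} (h : Bnd c C w) :
    Bnd c C (a • w) := by
  have h1 := h.smul ha zero_le_one
  rwa [one_mul] at h1

theorem Bnd.mono {C C' : ℝ} (hC : C ≤ C') {w : W} (h : Bnd c C w) : Bnd c C' w :=
  fun j => (h j).trans hC

theorem norm_two_pow (n : ℕ) : ‖(2 : ℚ_[2]) ^ n‖ = (2 : ℝ)⁻¹ ^ n := by
  rw [norm_pow]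
  congr 1
  have := Padic.norm_p (p := 2)
  exact_mod_cast this

theorem Bnd.two_pow {C : ℝ} (n : ℕ) {w : W} (h : Bnd c C w) :
    Bnd c ((2 : ℝ)⁻¹ ^ n * C) ((2 : ℚ_[2]) ^ n • w) :=
  h.smul (norm_two_pow n).le (by positivity)

/-- An endomorphism which preserves the lattice. -/
theorem Bnd.map {Z : Module.End ℚ_[2] W} (hZ : ∀ j, Bnd c 1 (Z (c j))) {C : ℝ} (hC : 0 ≤ C) {w : W}
    (h : Bnd c C w) : Bnd c C (Z w) := by
  have h1 : Z w = ∑ j, c.repr w j • Z (c j) := by
    conv_lhs => rw [← c.sum_repr w]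
    rw [map_sum]
    exact Finset.sum_congr rfl fun j _ => map_smul _ _ _
  rw [h1]
  refine Bnd.sum hC fun j _ => ?_
  have h2 := (hZ j).smul (h j) hC
  rwa [mul_one] at h2

end bnd

variable {V W : Type} [AddCommGroup V] [Module ℚ_[2] V] [AddCommGroup W] [Module ℚ_[2] W]
  {ν ν' : Type} [Fintype ν] [DecidableEq ν] [Fintype ν'] [DecidableEq ν'] (b : Basis ν ℚ_[2] V)
  (c : Basis ν' ℚ_[2] W) {κ : Type} [Fintype κ] [DecidableEq κ]

/-- A form is bounded on the lattice. -/
theorem form_bound (f : MultilinearMap ℚ_[2] (fun _ : κ => V) W) :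
    ∃ C : ℝ, 0 ≤ C ∧ ∀ v : κ → V, (∀ i, Bnd b 1 (v i)) → Bnd c C (f v) := by
  let C : ℝ := ∑ I : κ → ν, ∑ j, ‖c.repr (f fun i => b (I i)) j‖
  have hC : 0 ≤ C := Finset.sum_nonneg fun I _ => Finset.sum_nonneg fun j _ => norm_nonneg _
  refine ⟨C, hC, fun v hv => ?_⟩
  have h1 : f v = ∑ I : κ → ν, (∏ i, b.repr (v i) (I i)) • f (fun i => b (I i)) := by
    conv_lhs => rw [← funext fun i => b.sum_repr (v i)]
    rw [MultilinearMap.map_sum]
    refine Finset.sum_congr rfl fun I _ => ?_
    rw [MultilinearMap.map_smul_univ]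
  rw [h1]
  refine Bnd.sum hC fun I _ => Bnd.smul_one ?_ ?_
  · rw [norm_prod]
    exact Finset.prod_le_one (fun i _ => norm_nonneg _) fun i _ => hv i _
  · intro j
    refine le_trans ?_ (Finset.single_le_sum (f := fun I : κ → ν =>
      ∑ j, ‖c.repr (f fun i => b (I i)) j‖) (fun I _ => Finset.sum_nonneg fun j _ => norm_nonneg _)
      (Finset.mem_univ I))
    exact Finset.single_le_sum (f := fun j => ‖c.repr (f fun i => b (I i)) j‖)
      (fun j _ => norm_nonneg _) (Finset.mem_univ j)

/-- A functional is bounded. -/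
theorem dual_bound (l : Dual ℚ_[2] (MultilinearMap ℚ_[2] (fun _ : κ => V) W)) :
    ∃ C : ℝ, 0 ≤ C ∧ ∀ (g : MultilinearMap ℚ_[2] (fun _ : κ => V) W) (B : ℝ),
      (∀ I : κ → ν, Bnd c B (g fun i => b (I i))) → ‖l g‖ ≤ C * B := by
  let ev : MultilinearMap ℚ_[2] (fun _ : κ => V) W →ₗ[ℚ_[2]] ((κ → ν) × ν' → ℚ_[2]) :=
    { toFun := fun g x => c.repr (g fun i => b (x.1 i)) x.2
      map_add' := fun g g' => by
        funext x
        change c.repr (g _ + g' _) x.2 = _
        rw [map_add]
        rfl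
      map_smul' := fun r g => by
        funext x
        change c.repr (r • g _) x.2 = _
        rw [map_smul]
        rfl }
  have hinj : LinearMap.ker ev = ⊥ := by
    rw [LinearMap.ker_eq_bot']
    intro g hg
    refine Basis.ext_multilinear (fun _ => b) fun I => ?_
    apply c.repr.injective
    ext j
    rw [show (0 : MultilinearMap ℚ_[2] (fun _ : κ => V) W) (fun i => b (I i)) = 0 from rfl,
      map_zero]
    exact congrFun hg (I, j)
  obtain ⟨q, hq⟩ := ev.exists_leftInverse_of_injective hinj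
  let l' : ((κ → ν) × ν' → ℚ_[2]) →ₗ[ℚ_[2]] ℚ_[2] := l.comp q
  have hl : ∀ g, l g = l' (ev g) := by
    intro g
    have h1 := LinearMap.congr_fun hq g
    change l g = l (q (ev g))
    rw [show q (ev g) = g from h1]
  refine ⟨∑ x, ‖l' (Pi.single x 1)‖, Finset.sum_nonneg fun x _ => norm_nonneg _,
    fun g B hB => ?_⟩
  rw [hl, LinearMap.pi_apply_eq_sum_univ, Finset.sum_mul]
  refine (norm_sum_le _ _).trans (Finset.sum_le_sum fun x _ => ?_)
  rw [smul_eq_mul, norm_mul, mul_comm]
  have h1 : (fun j => if x = j then (1 : ℚ_[2]) else 0) = Pi.single x 1 := by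
    funext j
    by_cases h : x = j
    · subst h
      rw [if_pos rfl, Pi.single_eq_same]
    · rw [if_neg h, Pi.single_eq_of_ne (Ne.symm h)]
  rw [h1]
  exact mul_le_mul_of_nonneg_left (hB x.1 x.2) (norm_nonneg _)

variable {b c}

/-- The values of a form at close vectors. -/
theorem close_one {f : MultilinearMap ℚ_[2] (fun _ : κ => V) W} {C : ℝ} (hC : 0 ≤ C)
    (hf : ∀ v : κ → V, (∀ i, Bnd b 1 (v i)) → Bnd c C (f v)) {Y : Module.End ℚ_[2] V}
    (hY : ∀ j, Bnd b 1 (Y (b j))) (n : ℕ) (S : Finset κ) : ∀ v w : κ → V, (∀ i, Bnd b 1 (v i)) →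
      (∀ i, i ∈ S → w i = v i + (2 : ℚ_[2]) ^ n • Y (v i)) → (∀ i, i ∉ S → w i = v i) →
      Bnd c ((2 : ℝ)⁻¹ ^ n * C) (f w - f v) := by
  induction S using Finset.induction_on with
  | empty =>
    intro v w _ _ hw
    have h1 : w = v := funext fun i => hw i (Finset.notMem_empty i)
    rw [h1, sub_self]
    exact Bnd.zero (by positivity)
  | insert a S ha ih =>
    intro v w hv hw1 hw2
    let w' : κ → V := Function.update w a (v a)
    have h1 : w = Function.update w a (v a + (2 : ℚ_[2]) ^ n • Y (v a)) := by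
      conv_lhs => rw [← Function.update_eq_self a w]
      rw [hw1 a (Finset.mem_insert_self a S)]
    have hYv : ∀ i, Bnd b 1 (Y (v i)) := fun i => Bnd.map hY zero_le_one (hv i)
    have hwi : ∀ i, Bnd b 1 (w i) := by
      intro i
      by_cases hi : i ∈ insert a S
      · rw [hw1 i hi]
        exact (hv i).add ((hYv i).smul_one (by
          rw [norm_two_pow]
          exact pow_le_one₀ (by norm_num) (by norm_num)))
      · rw [hw2 i hi]
        exact hv i
    have h2 : f w = f w' + (2 : ℚ_[2]) ^ n • f (Function.update w a (Y (v a))) := by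
      conv_lhs => rw [h1]
      rw [MultilinearMap.map_update_add, MultilinearMap.map_update_smul]
    have h3 : f w - f v = (f w' - f v) + (2 : ℚ_[2]) ^ n • f (Function.update w a (Y (v a))) := by
      rw [h2]
      abel
    rw [h3]
    refine Bnd.add (ih v w' hv (fun i hi => ?_) fun i hi => ?_) (Bnd.two_pow n (hf _ fun i => ?_))
    · have hia : i ≠ a := by
        rintro rfl
        exact ha hi
      change Function.update w a (v a) i = _
      rw [Function.update_of_ne hia]
      exact hw1 i (Finset.mem_insert_of_mem hi)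
    · by_cases hia : i = a
      · subst hia
        exact Function.update_self _ _ _
      · change Function.update w a (v a) i = _
        rw [Function.update_of_ne hia]
        exact hw2 i fun h => (Finset.mem_insert.1 h).elim hia hi
    · by_cases hia : i = a
      · subst hia
        rw [Function.update_self]
        exact hYv i
      · rw [Function.update_of_ne hia]
        exact hwi i

/-- The first order expansion of a form. -/
theorem close_two {f : MultilinearMap ℚ_[2] (fun _ : κ => V) W} {C : ℝ} (hC : 0 ≤ C)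
    (hf : ∀ v : κ → V, (∀ i, Bnd b 1 (v i)) → Bnd c C (f v)) {Y : Module.End ℚ_[2] V}
    (hY : ∀ j, Bnd b 1 (Y (b j))) (n : ℕ) (S : Finset κ) : ∀ v w : κ → V, (∀ i, Bnd b 1 (v i)) →
      (∀ i, i ∈ S → w i = v i + (2 : ℚ_[2]) ^ n • Y (v i)) → (∀ i, i ∉ S → w i = v i) →
      Bnd c ((2 : ℝ)⁻¹ ^ (n + n) * C)
        (f w - f v - (2 : ℚ_[2]) ^ n • ∑ k ∈ S, f (Function.update v k (Y (v k)))) := by
  induction S using Finset.induction_on with
  | empty =>
    intro v w _ _ hw
    have h1 : w = v := funext fun i => hw i (Finset.notMem_empty i)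
    rw [h1, sub_self, Finset.sum_empty, smul_zero, sub_zero]
    exact Bnd.zero (by positivity)
  | insert a S ha ih =>
    intro v w hv hw1 hw2
    let w' : κ → V := Function.update w a (v a)
    have hYv : ∀ i, Bnd b 1 (Y (v i)) := fun i => Bnd.map hY zero_le_one (hv i)
    have h1 : w = Function.update w a (v a + (2 : ℚ_[2]) ^ n • Y (v a)) := by
      conv_lhs => rw [← Function.update_eq_self a w]
      rw [hw1 a (Finset.mem_insert_self a S)]
    have h2 : f w = f w' + (2 : ℚ_[2]) ^ n • f (Function.update w a (Y (v a))) := by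
      conv_lhs => rw [h1]
      rw [MultilinearMap.map_update_add, MultilinearMap.map_update_smul]
    have h3 : f w - f v - (2 : ℚ_[2]) ^ n • ∑ k ∈ insert a S, f (Function.update v k (Y (v k))) =
        (f w' - f v - (2 : ℚ_[2]) ^ n • ∑ k ∈ S, f (Function.update v k (Y (v k)))) +
        (2 : ℚ_[2]) ^ n • (f (Function.update w a (Y (v a))) -
          f (Function.update v a (Y (v a)))) := by
      rw [h2, Finset.sum_insert ha, smul_add, smul_sub]
      abel
    rw [h3]
    refine Bnd.add (ih v w' hv (fun i hi => ?_) fun i hi => ?_) ?_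
    · have hia : i ≠ a := by
        rintro rfl
        exact ha hi
      change Function.update w a (v a) i = _
      rw [Function.update_of_ne hia]
      exact hw1 i (Finset.mem_insert_of_mem hi)
    · by_cases hia : i = a
      · subst hia
        exact Function.update_self _ _ _
      · change Function.update w a (v a) i = _
        rw [Function.update_of_ne hia]
        exact hw2 i fun h => (Finset.mem_insert.1 h).elim hia hi
    · rw [pow_add, mul_assoc]
      refine Bnd.two_pow n (close_one hC hf hY n S _ _ (fun i => ?_) (fun i hi => ?_)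
        fun i hi => ?_)
      · by_cases hia : i = a
        · subst hia
          rw [Function.update_self]
          exact hYv i
        · rw [Function.update_of_ne hia]
          exact hv i
      · have hia : i ≠ a := by
          rintro rfl
          exact ha hi
        rw [Function.update_of_ne hia, Function.update_of_ne hia]
        exact hw1 i (Finset.mem_insert_of_mem hi)
      · by_cases hia : i = a
        · subst hia
          rw [Function.update_self, Function.update_self]
        · rw [Function.update_of_ne hia, Function.update_of_ne hia]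
          exact hw2 i fun h => (Finset.mem_insert.1 h).elim hia hi

variable {Γ : Type} [Group Γ] {ρ : Representation ℚ_[2] Γ V} {τ : Representation ℚ_[2] Γ W}

/-- **Stable spaces of forms are stable under the tangent vectors.** -/
theorem stable_dW {X : Module.End ℚ_[2] V} (hX : ∀ j, Bnd b 1 (X (b j)))
    (h : ∀ m : ℕ, ∃ n₀ : ℕ, ∀ n, n₀ ≤ n → ∃ (σ : Γ) (Z : Module.End ℚ_[2] V)
      (Z' : Module.End ℚ_[2] W), (∀ j, Bnd b 1 (Z (b j))) ∧ (∀ j, Bnd c 1 (Z' (c j))) ∧
        ρ σ = 1 + (2 : ℚ_[2]) ^ n • (X + (2 : ℚ_[2]) ^ m • Z) ∧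
        τ σ⁻¹ = 1 + (2 : ℚ_[2]) ^ (n + m) • Z')
    (U : Submodule ℚ_[2] (MultilinearMap ℚ_[2] (fun _ : κ => V) W))
    (hU : ∀ s, ∀ f ∈ U, actW ρ τ s f ∈ U) {f : MultilinearMap ℚ_[2] (fun _ : κ => V) W}
    (hf : f ∈ U) : dW X f ∈ U := by
  by_contra hcon
  obtain ⟨l, hl1, hl2⟩ := Submodule.exists_le_ker_of_notMem hcon
  obtain ⟨C, hC, hfC⟩ := form_bound b c f
  obtain ⟨Cl, hCl, hl⟩ := dual_bound (κ := κ) b c l
  have hbb : ∀ I : κ → ν, ∀ i, Bnd b 1 (b (I i)) := by
    intro I i j
    rw [Basis.repr_self]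
    by_cases hij : I i = j
    · rw [hij, Finsupp.single_eq_same, norm_one]
    · rw [Finsupp.single_eq_of_ne (Ne.symm hij), norm_zero]
      exact zero_le_one
  have key : ∀ m : ℕ, ‖l (dW X f)‖ ≤ (2 : ℝ)⁻¹ ^ m * (Cl * C) := by
    intro m
    obtain ⟨n₀, h0⟩ := h m
    obtain ⟨σ, Z, Z', hZ, hZ', hσ, hτ⟩ := h0 (max n₀ m) (le_max_left _ _)
    generalize hn : max n₀ m = n at hσ hτ
    have hnm : m ≤ n := hn ▸ le_max_right _ _
    set Y : Module.End ℚ_[2] V := X + (2 : ℚ_[2]) ^ m • Z with hYdef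
    have hY : ∀ j, Bnd b 1 (Y (b j)) := fun j => (hX j).add ((hZ j).smul_one (by
      rw [norm_two_pow]
      exact pow_le_one₀ (by norm_num) (by norm_num)))
    let G : MultilinearMap ℚ_[2] (fun _ : κ => V) W :=
      actW ρ τ σ⁻¹ f - f - (2 : ℚ_[2]) ^ n • dW X f
    have hG : ∀ I : κ → ν, Bnd c ((2 : ℝ)⁻¹ ^ (n + m) * C) (G fun i => b (I i)) := by
      intro I
      set v : κ → V := fun i => b (I i) with hv
      let w : κ → V := fun i => ρ σ (v i)
      have hw : ∀ i, w i = v i + (2 : ℚ_[2]) ^ n • Y (v i) := by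
        intro i
        change ρ σ (v i) = _
        rw [hσ]
        rfl
      have hwi : ∀ i, Bnd b 1 (w i) := by
        intro i
        rw [hw]
        exact (hbb I i).add ((Bnd.map hY zero_le_one (hbb I i)).smul_one (by
          rw [norm_two_pow]
          exact pow_le_one₀ (by norm_num) (by norm_num)))
      have h1 : actW ρ τ σ⁻¹ f v = f w + (2 : ℚ_[2]) ^ (n + m) • Z' (f w) := by
        rw [actW_apply, inv_inv, hτ]
        rfl
      have h2 := close_two hC hfC hY n Finset.univ v w (hbb I) (fun i _ => hw i)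
        (fun i hi => absurd (Finset.mem_univ i) hi)
      have h3 : ∑ k, f (Function.update v k (Y (v k))) =
          dW X f v + (2 : ℚ_[2]) ^ m • dW Z f v := by
        rw [← dW_apply, hYdef, dW_add, dW_smul]
        rfl
      have h4 : G v = (f w - f v - (2 : ℚ_[2]) ^ n • ∑ k, f (Function.update v k (Y (v k)))) +
          (2 : ℚ_[2]) ^ (n + m) • (Z' (f w) + dW Z f v) := by
        change actW ρ τ σ⁻¹ f v - f v - (2 : ℚ_[2]) ^ n • dW X f v = _
        rw [h1, h3, pow_add, mul_smul, mul_smul, smul_add, smul_add, smul_add]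
        abel
      rw [h4]
      refine Bnd.add (h2.mono ?_) (Bnd.two_pow _ (Bnd.add ?_ ?_))
      · exact mul_le_mul_of_nonneg_right (pow_le_pow_of_le_one (by norm_num) (by norm_num)
          (by omega)) hC
      · exact Bnd.map hZ' hC (hfC _ hwi)
      · rw [dW_apply]
        refine Bnd.sum hC fun k _ => hfC _ fun i => ?_
        by_cases hik : i = k
        · subst hik
          rw [Function.update_self]
          exact Bnd.map hZ zero_le_one (hbb I i)
        · rw [Function.update_of_ne hik]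
          exact hbb I i
    have h5 := hl G _ hG
    have h6 : l G = -((2 : ℚ_[2]) ^ n * l (dW X f)) := by
      change l (actW ρ τ σ⁻¹ f - f - (2 : ℚ_[2]) ^ n • dW X f) = _
      rw [map_sub, map_sub, map_smul, smul_eq_mul, LinearMap.mem_ker.1 (hl2 (hU _ f hf)),
        LinearMap.mem_ker.1 (hl2 hf)]
      ring
    rw [h6, norm_neg, norm_mul, norm_two_pow, pow_add] at h5
    have h7 : (0 : ℝ) < (2 : ℝ)⁻¹ ^ n := by positivity
    have h8 : (2 : ℝ)⁻¹ ^ n * ‖l (dW X f)‖ ≤ (2 : ℝ)⁻¹ ^ n * ((2 : ℝ)⁻¹ ^ m * (Cl * C)) := by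
      calc _ ≤ _ := h5
        _ = _ := by ring
    exact le_of_mul_le_mul_left h8 h7
  have hz : ‖l (dW X f)‖ ≤ 0 := by
    have h5 : Filter.Tendsto (fun m : ℕ => (2 : ℝ)⁻¹ ^ m * (Cl * C)) Filter.atTop
        (nhds (0 * (Cl * C))) :=
      (tendsto_pow_atTop_nhds_zero_of_lt_one (by norm_num) (by norm_num)).mul_const _
    rw [zero_mul] at h5
    exact ge_of_tendsto' h5 key
  exact hl1 (norm_eq_zero.1 (le_antisymm hz (norm_nonneg _)))

end

end Pool.Agent.V5helper93.GTC.Der
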