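import Pool.Agent.V5helper93.GTC.Key

/-!
# The values modulo products of a stable space of forms: the theorem
-/

set_option linter.unusedSectionVars false

namespace Pool.Agent.V5helper93.GTC

open Module TensorProduct Polynomial Pool.Agent.H204R3.SP Pool.Agent.H204R3.GP
  Pool.Agent.W529.Ta Pool.Agent.Y128.GT Pool.Agent.W522.U Pool.Agent.TH776.FM Pool.Agent.TH776.FL

noncomputable section

variable {k V W Γ : Type} [Field k] [CharZero k] [AddCommGroup V] [Module k V]
  [FiniteDimensional k V] [AddCommGroup W] [Module k W] [Group Γ]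

/-- The hypotheses: a symplectic representation with all infinitesimal transvections, whose Tate
classes are generated in degree two, such that the stable spaces of forms with values in `W` are
stable under the infinitesimal transvections. -/
structure Ctx (ρ : Representation k Γ V) (χ : Γ →* k) (ω : V →ₗ[k] V →ₗ[k] k)
    (τ : Representation k Γ W) : Prop where
  alt : ∀ v, ω v v = 0
  nondeg : ∀ u, (∀ v, ω v u = 0) → u = 0
  sim : ∀ s u v, ω (ρ s u) (ρ s v) = χ s * ω u v
  tan : ∀ a, LinTan ρ (tv ω a)
  gen : TateGeneratedInDegreeTwo ρ χ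
  der : ∀ (m : ℕ) (U : Submodule k (MultilinearMap k (fun _ : Fin m => V) W)),
    (∀ s, ∀ f ∈ U, actW ρ τ s f ∈ U) → ∀ a, ∀ f ∈ U, dW (tv ω a) f ∈ U

variable {ρ : Representation k Γ V} {χ : Γ →* k} {ω : V →ₗ[k] V →ₗ[k] k}
  {τ : Representation k Γ W}

section schur

variable {K : Type} [Field K] [CharZero K] [Algebra k K]

theorem bc_tv (ω : V →ₗ[k] V →ₗ[k] k) (a : V) (z : K ⊗[k] V) :
    (tv ω a).baseChange K z = bcb K ω (1 ⊗ₜ[k] a) z • ((1 : K) ⊗ₜ[k] a) := by
  induction z with
  | zero => rw [map_zero, map_zero, zero_smul]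
  | add x y hx hy => rw [map_add, map_add, hx, hy, add_smul]
  | tmul c v =>
    rw [LinearMap.baseChange_tmul, tv_apply, bcb_tmul, tmul_smul]
    simp only [one_mul, TensorProduct.smul_tmul', smul_eq_mul, mul_one]

/-- Endomorphisms over an extension which commute with a subgroup of finite index commute with the
infinitesimal transvections. -/
theorem LinTan.commK {Y : Module.End k V} (h : LinTan ρ Y) (Δ : Subgroup Γ) (hΔ : Δ.FiniteIndex)
    (P : Module.End K (K ⊗[k] V)) (hP : ∀ s ∈ Δ, ∀ v, P (bcr ρ K s v) = bcr ρ K s (P v))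
    (z : K ⊗[k] V) : P (Y.baseChange K z) = Y.baseChange K (P z) := by
  rw [← sub_eq_zero]
  by_contra hcon
  obtain ⟨l, hl⟩ : ∃ l : (K ⊗[k] V) →ₗ[K] K,
      l (P (Y.baseChange K z) - Y.baseChange K (P z)) ≠ 0 := by
    by_contra h0
    push Not at h0
    exact hcon ((Module.forall_dual_apply_eq_zero_iff K _).1 h0)
  obtain ⟨π, hπ⟩ : ∃ π : K →ₗ[k] k, π (l (P (Y.baseChange K z) - Y.baseChange K (P z))) ≠ 0 := by
    by_contra h0
    push Not at h0
    exact hl ((Module.forall_dual_apply_eq_zero_iff k _).1 h0)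
  let f : Module.End k V →ₗ[k] k :=
    { toFun := fun Z => π (l (P (Z.baseChange K z) - Z.baseChange K (P z)))
      map_add' := by
        intro Z Z'
        rw [LinearMap.baseChange_add, LinearMap.add_apply, LinearMap.add_apply, map_add,
          add_sub_add_comm, map_add, map_add]
      map_smul' := by
        intro c Z
        have h1 : ∀ y, (c • Z).baseChange K y = algebraMap k K c • Z.baseChange K y := by
          intro y
          rw [LinearMap.baseChange_smul, LinearMap.smul_apply, algebraMap_smul]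
        rw [h1, h1, map_smul, map_sub, map_smul, map_smul, smul_eq_mul, smul_eq_mul, ← mul_sub,
          ← map_sub, ← Algebra.smul_def, map_smul, RingHom.id_apply] }
  refine hπ (h Δ hΔ f fun s hs => ?_)
  change π (l (P ((ρ s).baseChange K z) - (ρ s).baseChange K (P z))) =
    π (l (P ((1 : Module.End k V).baseChange K z) - (1 : Module.End k V).baseChange K (P z)))
  have h1 : (1 : Module.End k V).baseChange K = 1 := by
    rw [show (1 : Module.End k V) = LinearMap.id from rfl, LinearMap.baseChange_id]
    rfl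
  rw [h1, Module.End.one_apply, Module.End.one_apply, sub_self]
  have h2 := hP s hs z
  change P ((ρ s).baseChange K z) = (ρ s).baseChange K (P z) at h2
  rw [h2, sub_self]

/-- **Schur's lemma.** -/
theorem Ctx.schurK (h : Ctx ρ χ ω τ) (Δ : Subgroup Γ) (hΔ : Δ.FiniteIndex)
    (P : Module.End K (K ⊗[k] V)) (hP : ∀ s ∈ Δ, ∀ v, P (bcr ρ K s v) = bcr ρ K s (P v)) :
    ∃ c : K, ∀ v, P v = c • v := by
  classical
  have hleft := left_nondeg ω h.alt h.nondeg
  have h1 : ∀ a : V, a ≠ 0 → ∃ c : K, P (1 ⊗ₜ[k] a) = c • ((1 : K) ⊗ₜ[k] a) := by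
    intro a ha
    obtain ⟨v, hv⟩ : ∃ v, ω a v ≠ 0 := by
      by_contra hcon
      push Not at hcon
      exact ha (hleft a hcon)
    have h2 := (h.tan a).commK Δ hΔ P hP (1 ⊗ₜ[k] v)
    rw [bc_tv, bc_tv, map_smul, bcb_one] at h2
    have h3 : algebraMap k K (ω a v) ≠ 0 := by
      rw [Ne, map_eq_zero]
      exact hv
    refine ⟨(algebraMap k K (ω a v))⁻¹ * bcb K ω (1 ⊗ₜ[k] a) (P (1 ⊗ₜ[k] v)), ?_⟩
    rw [mul_smul, ← h2, smul_smul, inv_mul_cancel₀ h3, one_smul]
  let b := Module.finBasis k V
  choose c hc using fun i => h1 (b i) (b.ne_zero i)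
  have hcc : ∀ i j, c i = c j := by
    intro i j
    by_cases hij : i = j
    · rw [hij]
    have hli : b i + b j ≠ 0 := by
      intro h0
      have h2 := congrArg (fun x => b.repr x i) h0
      simp only [map_add, Basis.repr_self, Finsupp.add_apply, Finsupp.single_eq_same, map_zero,
        Finsupp.zero_apply] at h2
      rw [Finsupp.single_eq_of_ne hij, add_zero] at h2
      exact one_ne_zero h2
    obtain ⟨d, hd⟩ := h1 _ hli
    rw [tmul_add, map_add, hc, hc, smul_add] at hd
    have h2 : ∀ l, (1 : K) ⊗ₜ[k] b l = b.baseChange K l := fun l =>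
      (Basis.baseChange_apply _ _ _).symm
    rw [h2, h2] at hd
    have h3 := congrArg (fun x => (b.baseChange K).repr x i) hd
    have h4 := congrArg (fun x => (b.baseChange K).repr x j) hd
    simp only [map_add, map_smul, Basis.repr_self, Finsupp.add_apply, Finsupp.smul_apply,
      Finsupp.single_eq_same, smul_eq_mul, mul_one] at h3 h4
    rw [Finsupp.single_eq_of_ne hij] at h3
    rw [Finsupp.single_eq_of_ne (Ne.symm hij)] at h4
    simp only [mul_zero, add_zero, zero_add] at h3 h4
    rw [h3, h4]
  rcases isEmpty_or_nonempty (Fin (finrank k V)) with he | ⟨⟨i₀⟩⟩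
  · refine ⟨0, fun v => ?_⟩
    have h2 : v = 0 := by
      apply (b.baseChange K).repr.injective
      ext i
      exact he.elim i
    rw [h2, map_zero, smul_zero]
  · refine ⟨c i₀, fun v => ?_⟩
    have h2 : P = c i₀ • (1 : Module.End K (K ⊗[k] V)) := by
      refine (b.baseChange K).ext fun i => ?_
      rw [Basis.baseChange_apply, hc, hcc i i₀]
      rfl
    rw [h2]
    rfl

end schur

end

end Pool.Agent.V5helper93.GTC
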