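import Pool.Agent.N171.TG.Tn7
import Pool.Agent.N171.Bg1
import Pool.Agent.H204R3.GP.Defs

/-!
# Tangent vectors and stable subspaces
-/

set_option linter.unusedSectionVars false

namespace Pool.Agent.V5helper93.GTC

open PadicInt Module TensorProduct Pool.Agent.N171 Pool.Agent.N171.TG Pool.Agent.N171.Bg

noncomputable section

section alg

variable {A : Type*} [Ring A] [Algebra ℤ_[2] A] {Γ : Type*} [Group Γ] {R : Γ →* A}

/-- Tangent vectors and subgroups of finite index. -/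
theorem tan_fi {X : A} (h : TanA R X) (Δ : Subgroup Γ) (hΔ : Δ.FiniteIndex) :
    ∃ N : ℕ, 0 < N ∧ ∀ m : ℕ, ∃ n : ℕ, ∃ σ ∈ Δ, ∃ Z : A,
      R σ = 1 + (2 : ℤ_[2]) ^ n • ((N : ℤ_[2]) • X + (2 : ℤ_[2]) ^ m • Z) := by
  have hN : Δ.normalCore.FiniteIndex := inferInstance
  refine ⟨Δ.normalCore.index, Nat.pos_of_ne_zero hN.index_ne_zero, fun m => ?_⟩
  obtain ⟨n₁, h1⟩ := h m
  obtain ⟨σ, Z, hσ⟩ := h1 (max n₁ m) (le_max_left _ _)
  obtain ⟨k, hk⟩ : ∃ k, max n₁ m = m + k := ⟨max n₁ m - m, by omega⟩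
  refine ⟨max n₁ m, σ ^ Δ.normalCore.index,
    Δ.normalCore_le (Subgroup.pow_index_mem _ σ), ?_⟩
  obtain ⟨V, hV⟩ := pow_lin (X + (2 : ℤ_[2]) ^ m • Z) (max n₁ m) Δ.normalCore.index
  refine ⟨(Δ.normalCore.index : ℤ_[2]) • Z + (2 : ℤ_[2]) ^ k • V, ?_⟩
  rw [map_pow, hσ, hV, hk]
  simp only [pow_add]
  module

/-- The image of a tangent vector. -/
theorem tan_map {A' : Type*} [Ring A'] [Algebra ℤ_[2] A'] (φ : A →ₐ[ℤ_[2]] A') {R' : Γ →* A'}
    (hR : ∀ s, R' s = φ (R s)) {X : A} (h : TanA R X) : TanA R' (φ X) := by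
  intro m
  obtain ⟨n₀, h0⟩ := h m
  refine ⟨n₀, fun n hn => ?_⟩
  obtain ⟨σ, Z, hσ⟩ := h0 n hn
  exact ⟨σ, φ Z, by rw [hR, hσ, map_add, map_one, map_smul, map_add, map_smul]⟩

end alg

section stable

variable {Γ : Type*} [Group Γ] {T : Type*} [AddCommGroup T] [Module ℤ_[2] T]
  [Module.Finite ℤ_[2] T] [Module.Free ℤ_[2] T] {ρ : Representation ℤ_[2] Γ T}

theorem bc_smul (c : ℤ_[2]) (Y : Module.End ℤ_[2] T) :
    (LinearMap.baseChange ℚ_[2] (c • Y) : Module.End ℚ_[2] (ℚ_[2] ⊗[ℤ_[2]] T)) =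
      (c : ℚ_[2]) • LinearMap.baseChange ℚ_[2] Y := by
  rw [LinearMap.baseChange_smul]
  exact (algebraMap_smul ℚ_[2] c (LinearMap.baseChange ℚ_[2] Y)).symm

theorem bc_one : (LinearMap.baseChange ℚ_[2] (1 : Module.End ℤ_[2] T) :
    Module.End ℚ_[2] (ℚ_[2] ⊗[ℤ_[2]] T)) = 1 := by
  rw [show (1 : Module.End ℤ_[2] T) = LinearMap.id from rfl, LinearMap.baseChange_id]
  rfl

/-- A linear functional is bounded on the integral endomorphisms. -/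
theorem bounded (f : Module.End ℚ_[2] (ℚ_[2] ⊗[ℤ_[2]] T) →ₗ[ℚ_[2]] ℚ_[2]) :
    ∃ C : ℝ, ∀ Z : Module.End ℤ_[2] T, ‖f (LinearMap.baseChange ℚ_[2] Z)‖ ≤ C := by
  classical
  let b := Module.finBasis ℤ_[2] (Module.End ℤ_[2] T)
  refine ⟨∑ i, ‖f (LinearMap.baseChange ℚ_[2] (b i))‖, fun Z => ?_⟩
  have h1 : (LinearMap.baseChange ℚ_[2] Z : Module.End ℚ_[2] (ℚ_[2] ⊗[ℤ_[2]] T)) =
      ∑ i, ((b.repr Z i : ℤ_[2]) : ℚ_[2]) • LinearMap.baseChange ℚ_[2] (b i) := by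
    conv_lhs => rw [← b.sum_repr Z]
    have h2 : ∀ (s : Finset (Fin (Module.finrank ℤ_[2] (Module.End ℤ_[2] T)))),
        (LinearMap.baseChange ℚ_[2] (∑ i ∈ s, b.repr Z i • b i) :
          Module.End ℚ_[2] (ℚ_[2] ⊗[ℤ_[2]] T)) =
        ∑ i ∈ s, ((b.repr Z i : ℤ_[2]) : ℚ_[2]) • LinearMap.baseChange ℚ_[2] (b i) := by
      intro s
      induction s using Finset.induction_on with
      | empty =>
        rw [Finset.sum_empty, Finset.sum_empty]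
        exact LinearMap.baseChange_zero
      | insert a s ha ih =>
        rw [Finset.sum_insert ha, Finset.sum_insert ha, LinearMap.baseChange_add, ih, bc_smul]
    exact h2 _
  rw [h1, map_sum]
  refine (norm_sum_le _ _).trans (Finset.sum_le_sum fun i _ => ?_)
  rw [map_smul, norm_smul]
  calc _ ≤ 1 * ‖f (LinearMap.baseChange ℚ_[2] (b i))‖ :=
        mul_le_mul_of_nonneg_right (PadicInt.norm_le_one _) (norm_nonneg _)
    _ = _ := one_mul _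

/-- The linear conditions on a subgroup of finite index are true for the tangent vectors. -/
theorem tan_functional {X : Module.End ℤ_[2] T} (h : TanA (ρ : Γ →* Module.End ℤ_[2] T) X)
    (Δ : Subgroup Γ) (hΔ : Δ.FiniteIndex)
    (f : Module.End ℚ_[2] (ℚ_[2] ⊗[ℤ_[2]] T) →ₗ[ℚ_[2]] ℚ_[2])
    (hf : ∀ s ∈ Δ, f (ratRep ρ s) = f 1) : f (LinearMap.baseChange ℚ_[2] X) = 0 := by
  obtain ⟨N, hN, hm⟩ := tan_fi h Δ hΔ
  obtain ⟨C, hC⟩ := bounded f
  have hN0 : (N : ℚ_[2]) ≠ 0 := Nat.cast_ne_zero.2 hN.ne'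
  have key : ∀ m : ℕ, ‖(N : ℚ_[2]) * f (LinearMap.baseChange ℚ_[2] X)‖ ≤ (2 : ℝ)⁻¹ ^ m * C := by
    intro m
    obtain ⟨n, σ, hσ, Z, hZ⟩ := hm m
    have h1 : ratRep ρ σ = 1 + (2 : ℚ_[2]) ^ n • ((N : ℚ_[2]) • LinearMap.baseChange ℚ_[2] X +
        (2 : ℚ_[2]) ^ m • LinearMap.baseChange ℚ_[2] Z) := by
      change LinearMap.baseChange ℚ_[2] (ρ σ) = _
      have h2 : ρ σ = 1 + (2 : ℤ_[2]) ^ n • ((N : ℤ_[2]) • X + (2 : ℤ_[2]) ^ m • Z) := hZ
      rw [h2, LinearMap.baseChange_add, bc_one, bc_smul, LinearMap.baseChange_add, bc_smul,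
        bc_smul]
      push_cast
      rfl
    have h2 := hf σ hσ
    rw [h1, map_add, add_eq_left, map_smul, smul_eq_zero] at h2
    rcases h2 with h2 | h2
    · exact absurd h2 (pow_ne_zero _ two_ne_zero)
    · rw [map_add, map_smul, map_smul, smul_eq_mul, smul_eq_mul] at h2
      rw [eq_neg_of_add_eq_zero_left h2, norm_neg, norm_mul, norm_pow]
      have h4 : ‖(2 : ℚ_[2])‖ = (2 : ℝ)⁻¹ := by
        have := Padic.norm_p (p := 2)
        exact_mod_cast this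
      rw [h4]
      exact mul_le_mul_of_nonneg_left (hC Z) (by positivity)
  have hz : ‖(N : ℚ_[2]) * f (LinearMap.baseChange ℚ_[2] X)‖ ≤ 0 := by
    have h5 : Filter.Tendsto (fun m : ℕ => (2 : ℝ)⁻¹ ^ m * C) Filter.atTop (nhds (0 * C)) :=
      (tendsto_pow_atTop_nhds_zero_of_lt_one (by norm_num) (by norm_num)).mul_const C
    rw [zero_mul] at h5
    exact ge_of_tendsto' h5 key
  have h6 : (N : ℚ_[2]) * f (LinearMap.baseChange ℚ_[2] X) = 0 :=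
    norm_eq_zero.1 (le_antisymm hz (norm_nonneg _))
  rcases mul_eq_zero.1 h6 with h6 | h6
  · exact absurd h6 hN0
  · exact h6

/-- Stable subspaces are stable under the tangent vectors. -/
theorem stable_tan {X : Module.End ℤ_[2] T} (h : TanA (ρ : Γ →* Module.End ℤ_[2] T) X)
    (Δ : Subgroup Γ) (hΔ : Δ.FiniteIndex) (U : Submodule ℚ_[2] (ℚ_[2] ⊗[ℤ_[2]] T))
    (hU : ∀ s ∈ Δ, ∀ u ∈ U, ratRep ρ s u ∈ U) {u : ℚ_[2] ⊗[ℤ_[2]] T} (hu : u ∈ U) :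
    LinearMap.baseChange ℚ_[2] X u ∈ U := by
  by_contra hcon
  obtain ⟨l, hl1, hl2⟩ := Submodule.exists_le_ker_of_notMem hcon
  refine hl1 (tan_functional h Δ hΔ (l.comp (LinearMap.applyₗ u)) fun s hs => ?_)
  change l (ratRep ρ s u) = l u
  rw [LinearMap.mem_ker.1 (hl2 (hU s hs u hu)), LinearMap.mem_ker.1 (hl2 hu)]

/-- Endomorphisms which commute with a subgroup of finite index commute with the tangent vectors. -/
theorem comm_tan {X : Module.End ℤ_[2] T} (h : TanA (ρ : Γ →* Module.End ℤ_[2] T) X)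
    (Δ : Subgroup Γ) (hΔ : Δ.FiniteIndex) (P : Module.End ℚ_[2] (ℚ_[2] ⊗[ℤ_[2]] T))
    (hP : ∀ s ∈ Δ, ∀ u, P (ratRep ρ s u) = ratRep ρ s (P u)) (u : ℚ_[2] ⊗[ℤ_[2]] T) :
    P (LinearMap.baseChange ℚ_[2] X u) = LinearMap.baseChange ℚ_[2] X (P u) := by
  rw [← sub_eq_zero]
  by_contra hcon
  obtain ⟨l, hl⟩ : ∃ l : (ℚ_[2] ⊗[ℤ_[2]] T) →ₗ[ℚ_[2]] ℚ_[2],
      l (P (LinearMap.baseChange ℚ_[2] X u) - LinearMap.baseChange ℚ_[2] X (P u)) ≠ 0 := by
    by_contra h0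
    push Not at h0
    exact hcon ((Module.forall_dual_apply_eq_zero_iff ℚ_[2] _).1 h0)
  refine hl (tan_functional h Δ hΔ (l.comp (P.comp (LinearMap.applyₗ u) -
    LinearMap.applyₗ (P u))) fun s hs => ?_)
  change l (P (ratRep ρ s u) - ratRep ρ s (P u)) = l (P u - P u)
  rw [hP s hs, sub_self, sub_self]

end stable

end

end Pool.Agent.V5helper93.GTC
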