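import Pool.Agent.V5helper93.GTC.Der
import Pool.Agent.V5helper93.GTC.Tan
import Pool.Agent.V5helper93.GTC.Main
import Pool.Agent.N171.TG.Wn1

/-!
# Large images modulo two: the hypotheses of the Künneth formula
-/

set_option linter.unusedSectionVars false

namespace Pool.Agent.V5helper93.GTC.Hyp

open PadicInt Module TensorProduct Pool.Agent.N171 Pool.Agent.N171.TG Pool.Agent.N171.Al
  Pool.Agent.N171.Bg Pool.Agent.V5helper93.GTC Pool.Agent.V5helper93.GTC.Der Equiv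

noncomputable section

variable {Γ : Type} [Group Γ] {T : Type} [AddCommGroup T] [Module ℤ_[2] T]
  [Module.Finite ℤ_[2] T] [Module.Free ℤ_[2] T] {ρ : Representation ℤ_[2] Γ T}
  {d : ℕ} {t : Γ →* Matrix (Fin d) (Fin d) ℤ_[2]} {B : T →ₗ[ℤ_[2]] T →ₗ[ℤ_[2]] ℤ_[2]}

/-- **The joint tangent vectors.** -/
theorem tan_one {τ : Type} [Fintype τ] [DecidableEq τ] {D : τ → T} {χ : Γ →* ℤ_[2]ˣ}
    {P : Γ →* Perm τ} (h : PermsX (fun _ : Unit => ρ) (B := fun _ => B) (D := fun _ => D)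
      (fun _ => χ) (fun _ => P)) (ht : ∃ s, (∃ M, t s = 1 + (2 : ℤ_[2]) • M) ∧ P s ≠ 1)
    {X : Module.End ℤ_[2] T} (hX : X ∈ spQ B (p1 T)) :
    ∀ m : ℕ, ∃ n₀ : ℕ, ∀ n, n₀ ≤ n → ∃ (σ : Γ) (Z : Module.End ℤ_[2] T)
      (Z' : Matrix (Fin d) (Fin d) ℤ_[2]),
      ρ σ = 1 + (2 : ℤ_[2]) ^ n • (X + (2 : ℤ_[2]) ^ m • Z) ∧
      t σ = 1 + (2 : ℤ_[2]) ^ (n + m) • Z' := by
  have h1 := h.tanW t (fun i j hij => absurd rfl hij) (fun _ => ht) (X := fun _ => X)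
    (fun _ => hX)
  intro m
  obtain ⟨n₀, h0⟩ := h1 m
  refine ⟨n₀, fun n hn => ?_⟩
  obtain ⟨σ, ⟨Z, Z'⟩, hσ⟩ := h0 n hn
  refine ⟨σ, Z (), Z', congrFun (congrArg Prod.fst hσ) (), ?_⟩
  have h2 : t σ = 1 + (2 : ℤ_[2]) ^ n • (0 + (2 : ℤ_[2]) ^ m • Z') := congrArg Prod.snd hσ
  rw [h2, zero_add, smul_smul, ← pow_add]

theorem exists_den (z : ℚ_[2] ⊗[ℤ_[2]] T) : ∃ (c : ℚ_[2]) (x : T), z = c • ((1 : ℚ_[2]) ⊗ₜ x) := by
  induction z with
  | zero => exact ⟨0, 0, by rw [zero_smul]⟩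
  | tmul a x => exact ⟨a, x, by rw [TensorProduct.smul_tmul', smul_eq_mul, mul_one]⟩
  | add z z' hz hz' =>
    obtain ⟨c, x, rfl⟩ := hz
    obtain ⟨c', x', rfl⟩ := hz'
    have key : ∀ (c c' : ℚ_[2]) (x x' : T), ‖c'‖ ≤ ‖c‖ → ∃ (a : ℚ_[2]) (y : T),
        c • ((1 : ℚ_[2]) ⊗ₜ[ℤ_[2]] x) + c' • ((1 : ℚ_[2]) ⊗ₜ[ℤ_[2]] x') =
          a • ((1 : ℚ_[2]) ⊗ₜ[ℤ_[2]] y) := by
      intro c c' x x' h
      by_cases hc : c = 0
      · subst hc
        rw [norm_zero] at h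
        have h1 : c' = 0 := norm_eq_zero.1 (le_antisymm h (norm_nonneg _))
        exact ⟨0, 0, by rw [h1, zero_smul, zero_smul, zero_smul, add_zero]⟩
      · have hc' : 0 < ‖c‖ := norm_pos_iff.2 hc
        let u : ℤ_[2] := ⟨c' / c, by
          rw [norm_div]
          exact (div_le_one hc').2 h⟩
        refine ⟨c, x + u • x', ?_⟩
        rw [tmul_add, smul_add, tmul_smul, ← algebraMap_smul ℚ_[2] u, smul_smul]
        congr 2
        change c' = c * (c' / c)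
        field_simp
    rcases le_total ‖c'‖ ‖c‖ with h | h
    · exact key c c' x x' h
    · obtain ⟨a, y, h1⟩ := key c' c x' x h
      exact ⟨a, y, by rw [add_comm]; exact h1⟩

theorem tv_scale {V : Type} [AddCommGroup V] [Module ℚ_[2] V]
    (ω : V →ₗ[ℚ_[2]] V →ₗ[ℚ_[2]] ℚ_[2]) (c : ℚ_[2]) (a : V) :
    tv ω (c • a) = c ^ 2 • tv ω a := by
  refine LinearMap.ext fun v => ?_
  rw [tv_apply, LinearMap.smul_apply, tv_apply, map_smul, LinearMap.smul_apply, smul_eq_mul,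
    smul_smul, smul_smul]
  congr 1
  ring

theorem tv_bc (x : T) : tv (BV B) ((1 : ℚ_[2]) ⊗ₜ x) = LinearMap.baseChange ℚ_[2] (Eo B x x) := by
  refine ext_tmul fun y => ?_
  rw [tv_apply, BV_tmul, LinearMap.baseChange_tmul, Eo_apply, tmul_smul, algebraMap_smul]

/-- **The linear conditions.** -/
theorem lin_tan (h : ∀ x : T, ∀ m : ℕ, ∃ n₀ : ℕ, ∀ n, n₀ ≤ n → ∃ (σ : Γ)
      (Z : Module.End ℤ_[2] T) (Z' : Matrix (Fin d) (Fin d) ℤ_[2]),
      ρ σ = 1 + (2 : ℤ_[2]) ^ n • (Eo B x x + (2 : ℤ_[2]) ^ m • Z) ∧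
      t σ = 1 + (2 : ℤ_[2]) ^ (n + m) • Z') (a : ℚ_[2] ⊗[ℤ_[2]] T) :
    LinTan (ratRep ρ) (tv (BV B) a) := by
  intro Δ hΔ f hf
  obtain ⟨c, x, rfl⟩ := exists_den a
  rw [tv_scale, map_smul, tv_bc]
  have h1 : TanA (ρ : Γ →* Module.End ℤ_[2] T) (Eo B x x) := by
    intro m
    obtain ⟨n₀, h0⟩ := h x m
    refine ⟨n₀, fun n hn => ?_⟩
    obtain ⟨σ, Z, Z', hσ, -⟩ := h0 n hn
    exact ⟨σ, Z, hσ⟩
  rw [tan_functional h1 Δ hΔ f hf, smul_zero]

variable {W : Type} [AddCommGroup W] [Module ℚ_[2] W] {c : Basis (Fin d) ℚ_[2] W}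
  {τW : Representation ℚ_[2] Γ W}

/-- **Stable spaces of forms.** -/
theorem der (ht : ∀ s i, τW s (c i) = ∑ j, algebraMap ℤ_[2] ℚ_[2] (t s j i) • c j)
    (h : ∀ x : T, ∀ m : ℕ, ∃ n₀ : ℕ, ∀ n, n₀ ≤ n → ∃ (σ : Γ)
      (Z : Module.End ℤ_[2] T) (Z' : Matrix (Fin d) (Fin d) ℤ_[2]),
      ρ σ = 1 + (2 : ℤ_[2]) ^ n • (Eo B x x + (2 : ℤ_[2]) ^ m • Z) ∧
      t σ = 1 + (2 : ℤ_[2]) ^ (n + m) • Z') (m : ℕ)
    (U : Submodule ℚ_[2] (MultilinearMap ℚ_[2] (fun _ : Fin m => ℚ_[2] ⊗[ℤ_[2]] T) W))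
    (hU : ∀ s, ∀ f ∈ U, actW (ratRep ρ) τW s f ∈ U) (a : ℚ_[2] ⊗[ℤ_[2]] T) :
    ∀ f ∈ U, dW (tv (BV B) a) f ∈ U := by
  classical
  intro f hf
  obtain ⟨r, x, rfl⟩ := exists_den a
  rw [tv_scale, dW_smul, tv_bc]
  refine U.smul_mem _ ?_
  let b₀ := Module.finBasis ℤ_[2] T
  let b := b₀.baseChange ℚ_[2]
  have hint : ∀ (Z : Module.End ℤ_[2] T) j, Bnd b 1 (LinearMap.baseChange ℚ_[2] Z (b j)) := by
    intro Z j i
    have h1 : LinearMap.baseChange ℚ_[2] Z (b j) = (1 : ℚ_[2]) ⊗ₜ[ℤ_[2]] Z (b₀ j) := by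
      rw [Basis.baseChange_apply, LinearMap.baseChange_tmul]
    rw [h1, Basis.baseChange_repr_tmul, Algebra.smul_def, mul_one]
    exact PadicInt.norm_le_one _
  refine stable_dW (b := b) (c := c) (hint _) (fun m => ?_) U hU hf
  obtain ⟨n₀, h0⟩ := h x m
  refine ⟨n₀, fun n hn => ?_⟩
  obtain ⟨σ, Z, Z', hσ, hσ'⟩ := h0 n hn
  let M : Matrix (Fin d) (Fin d) ℤ_[2] := -(t σ⁻¹ * Z')
  have hM : t σ⁻¹ = 1 + (2 : ℤ_[2]) ^ (n + m) • M := by
    have h1 : t σ⁻¹ * t σ = 1 := by rw [← map_mul, inv_mul_cancel, map_one]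
    rw [hσ', mul_add, mul_one, mul_smul_comm] at h1
    rw [← h1]
    simp only [M, smul_neg]
    abel
  let L : Module.End ℚ_[2] W := Matrix.toLin c c (M.map (algebraMap ℤ_[2] ℚ_[2]))
  have hL : ∀ i, L (c i) = ∑ j, algebraMap ℤ_[2] ℚ_[2] (M j i) • c j := by
    intro i
    rw [Matrix.toLin_self]
    rfl
  refine ⟨σ, LinearMap.baseChange ℚ_[2] Z, L, hint Z, fun j i => ?_, ?_, ?_⟩
  · have h1 : c.repr (L (c j)) i = algebraMap ℤ_[2] ℚ_[2] (M i j) := by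
      rw [hL, map_sum, Finsupp.finsetSum_apply, Finset.sum_eq_single i]
      · rw [map_smul, Finsupp.smul_apply, Module.Basis.repr_self, Finsupp.single_eq_same,
          smul_eq_mul, mul_one]
      · intro k _ hk
        rw [map_smul, Finsupp.smul_apply, Module.Basis.repr_self, Finsupp.single_eq_of_ne hk.symm,
          smul_zero]
      · intro h
        exact absurd (Finset.mem_univ _) h
    rw [h1]
    exact PadicInt.norm_le_one _
  · change LinearMap.baseChange ℚ_[2] (ρ σ) = _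
    rw [hσ, LinearMap.baseChange_add, bc_one, bc_smul, LinearMap.baseChange_add, bc_smul]
    push_cast
    rfl
  · refine c.ext fun i => ?_
    rw [ht, hM, LinearMap.add_apply, LinearMap.smul_apply, hL, Module.End.one_apply,
      Finset.smul_sum]
    have h1 : c i = ∑ j, (if j = i then (1 : ℚ_[2]) else 0) • c j := by
      rw [Finset.sum_eq_single i]
      · rw [if_pos rfl, one_smul]
      · intro k _ hk
        rw [if_neg hk, zero_smul]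
      · intro h
        exact absurd (Finset.mem_univ _) h
    conv_rhs => rw [h1]
    rw [← Finset.sum_add_distrib]
    refine Finset.sum_congr rfl fun j _ => ?_
    rw [smul_smul, ← add_smul]
    congr 1
    rw [Matrix.add_apply, Matrix.smul_apply, Matrix.one_apply, smul_eq_mul, map_add, map_mul,
      map_pow, map_ofNat]
    congr 1
    split_ifs
    · rw [map_one]
    · rw [map_zero]

end

end Pool.Agent.V5helper93.GTC.Hyp
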