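import Pool.Agent.V5helper93.GTC.Main4

/-!
# The Künneth formula for the Galois coniveau
-/

set_option linter.unusedSectionVars false

namespace Pool.Agent.V5helper93.GTC

open Module TensorProduct Polynomial Pool.Agent.H204R3.SP Pool.Agent.H204R3.GP
  Pool.Agent.W529.Ta Pool.Agent.Y128.GT Pool.Agent.W522.U Pool.Agent.TH776.FM Pool.Agent.TH776.FL

noncomputable section

section flag

variable {k V W : Type} [Field k] [AddCommGroup V] [Module k V]
  [AddCommGroup W] [Module k W] [FiniteDimensional k W] {n i : ℕ}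

/-- A form with values in `Y` all of whose coordinates are in `D`. -/
theorem mem_tens (D : Submodule k ((Fin n → V) [⋀^Fin i]→ₗ[k] k)) (Y : Submodule k W)
    (f : (Fin n → V) [⋀^Fin i]→ₗ[k] W) (hf : ∀ v, f v ∈ Y)
    (hD : ∀ l : Dual k W, l.compAlternatingMap f ∈ D) : f ∈ tens D Y := by
  classical
  obtain ⟨q, hq⟩ := Y.subtype.exists_leftInverse_of_injective (by rw [Submodule.ker_subtype])
  have hq1 : ∀ y : Y, q (y : W) = y := fun y => LinearMap.congr_fun hq y
  let b := Module.finBasis k Y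
  let g : Fin (finrank k Y) → (Fin n → V) [⋀^Fin i]→ₗ[k] W := fun a =>
    (LinearMap.toSpanSingleton k W (b a : W)).compAlternatingMap
      (((b.coord a).comp q).compAlternatingMap f)
  have h1 : f = ∑ a, g a := by
    refine AlternatingMap.ext fun v => ?_
    let ev : ((Fin n → V) [⋀^Fin i]→ₗ[k] W) →+ W :=
      { toFun := fun g => g v
        map_zero' := rfl
        map_add' := fun _ _ => rfl }
    have h0 : (∑ a, g a) v = ∑ a, g a v := map_sum ev g _
    have h2 := congrArg (Y.subtype) (b.sum_repr (q (f v)))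
    rw [map_sum] at h2
    have h3 : Y.subtype (q (f v)) = f v := congrArg Subtype.val (hq1 ⟨f v, hf v⟩)
    rw [h3] at h2
    rw [h0]
    conv_lhs => rw [← h2]
    refine Finset.sum_congr rfl fun a _ => ?_
    rw [map_smul]
    rfl
  rw [h1]
  exact Submodule.sum_mem _ fun a _ => Submodule.subset_span
    ⟨((b.coord a).comp q).compAlternatingMap f, hD _, _, (b a).2, fun v => rfl⟩

/-- **Flags.** -/
theorem flag_mem (D : ℕ → Submodule k ((Fin n → V) [⋀^Fin i]→ₗ[k] k)) (F : ℕ → Submodule k W)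
    (hF : Monotone F) (hD : ∀ f, f ∈ D 0) : ∀ (j : ℕ) (f : (Fin n → V) [⋀^Fin i]→ₗ[k] W),
    (∀ v, f v ∈ F j) → (∀ c, c < j → ∀ l : Dual k W, (∀ w ∈ F c, l w = 0) →
      l.compAlternatingMap f ∈ D (c + 1)) →
    f ∈ ⨆ (c : ℕ) (_ : c ≤ j), tens (D c) (F c) := by
  intro j
  induction j with
  | zero =>
    intro f hf _
    exact Submodule.mem_iSup_of_mem 0 (Submodule.mem_iSup_of_mem le_rfl
      (mem_tens _ _ f hf fun l => hD _))
  | succ j ih =>
    intro f hf hl
    obtain ⟨q, hq⟩ := (F j).subtype.exists_leftInverse_of_injective (by rw [Submodule.ker_subtype])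
    have hq1 : ∀ y : F j, q (y : W) = y := fun y => LinearMap.congr_fun hq y
    let π : W →ₗ[k] W := (F j).subtype.comp q
    have hπ1 : ∀ w ∈ F j, π w = w := fun w hw => congrArg Subtype.val (hq1 ⟨w, hw⟩)
    have hπ2 : ∀ w, π w ∈ F j := fun w => (q w).2
    have h1 : f = π.compAlternatingMap f + (LinearMap.id - π).compAlternatingMap f := by
      refine AlternatingMap.ext fun v => ?_
      change f v = π (f v) + (f v - π (f v))
      rw [add_sub_cancel]
    rw [h1]
    refine Submodule.add_mem _ ?_ ?_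
    · have h2 := ih (π.compAlternatingMap f) (fun v => hπ2 _) fun c hc l hlc => by
        have h3 := hl c (by omega) (l.comp π) fun w hw => by
          rw [LinearMap.comp_apply, hπ1 w (hF hc.le hw), hlc w hw]
        exact h3
      refine (iSup_le fun c => iSup_le fun hc => ?_ :
        (⨆ (c : ℕ) (_ : c ≤ j), tens (D c) (F c)) ≤ _) h2
      exact le_iSup_of_le c (le_iSup_of_le (by omega) le_rfl)
    · refine Submodule.mem_iSup_of_mem (j + 1) (Submodule.mem_iSup_of_mem le_rfl
        (mem_tens _ _ _ (fun v => ?_) fun l => ?_))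
      · exact (F (j + 1)).sub_mem (hf v) (hF (Nat.le_succ j) (hπ2 _))
      · exact hl j (Nat.lt_succ_self j) (l.comp (LinearMap.id - π)) fun w hw => by
          rw [LinearMap.comp_apply, LinearMap.sub_apply, LinearMap.id_apply, hπ1 w hw, sub_self,
            map_zero]

end flag

variable {k V W Γ : Type} [Field k] [CharZero k] [AddCommGroup V] [Module k V]
  [FiniteDimensional k V] [AddCommGroup W] [Module k W] [FiniteDimensional k W] [Group Γ]
  {ρ : Representation k Γ V} {χ : Γ →* k} {ω : V →ₗ[k] V →ₗ[k] k}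
  {τ : Representation k Γ W}

theorem EntireOn.anti {p a s s' : ℕ} (hp : p ≠ 0) (hs : s' ≤ s) {T : Module.End k W}
    {U : Submodule k W} (h : EntireOn p a s T U) : EntireOn p a s' T U := by
  obtain ⟨Q, hQm, hQU, hQβ⟩ := h
  refine ⟨Q, hQm, hQU, fun β hβ => ?_⟩
  obtain ⟨d, rfl⟩ := Nat.exists_eq_add_of_le hs
  have hp0 : (p : AlgebraicClosure k) ^ a ≠ 0 := pow_ne_zero _ (Nat.cast_ne_zero.2 hp)
  have h1 : β / ((p : AlgebraicClosure k) ^ a) ^ s' =
      β / ((p : AlgebraicClosure k) ^ a) ^ (s' + d) * ((p : AlgebraicClosure k) ^ a) ^ d := by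
    rw [pow_add]
    field_simp
  rw [h1]
  have h2 : IsIntegral ℤ ((p : AlgebraicClosure k)) := by
    have h3 : IsIntegral ℤ (algebraMap ℤ (AlgebraicClosure k) (p : ℤ)) := isIntegral_algebraMap
    rwa [map_natCast] at h3
  exact (hQβ β hβ).mul ((h2.pow a).pow d)

theorem coniv_anti {P : Set (Γ × ℕ × ℕ)} (hP : ∀ x ∈ P, x.2.1 ≠ 0) {s s' : ℕ} (hs : s' ≤ s) :
    coniv τ P s ≤ coniv τ P s' :=
  sSup_le_sSup fun _ hU => ⟨hU.1, fun x hx => (hU.2 x hx).anti (hP x hx) hs⟩

theorem divisor_zero {n i : ℕ} (f : (Fin n → V) [⋀^Fin i]→ₗ[k] k) :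
    f ∈ Submodule.span k (divisorProducts ρ χ n i 0) :=
  alt_IJ χ ρ f (Submodule.mem_top (R := k))

/-- **The Künneth formula for the Galois coniveau.** -/
theorem Ctx.kunneth (h : Ctx ρ χ ω τ) {P : Set (Γ × ℕ × ℕ)}
    (hP : ∀ x ∈ P, x.2.1.Prime ∧ 0 < x.2.2 ∧ OrdinaryFrobenius ρ χ x.2.1 x.2.2 x.1)
    (hW : ∀ x ∈ P, EntireOn x.2.1 x.2.2 0 (τ x.1⁻¹) ⊤) (n i ν : ℕ) :
    coniv (altRep ρ τ n i) P ν ≤ ⨆ (c : ℕ) (_ : c ≤ ν),
      tens (Submodule.span k (divisorProducts ρ χ n i c)) (coniv τ P (ν - c)) := by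
  refine sSup_le fun U hU f hf => ?_
  have hanti : ∀ {s s' : ℕ}, s' ≤ s → coniv τ P s ≤ coniv τ P s' := fun hs =>
    coniv_anti (fun x hx => (hP x hx).1.ne_zero) hs
  have htop : coniv τ P 0 = ⊤ := by
    refine top_le_iff.1 (le_sSup ⟨fun g u _ => Submodule.mem_top, hW⟩)
  refine flag_mem (fun c => Submodule.span k (divisorProducts ρ χ n i c))
    (fun c => coniv τ P (ν - c)) (fun c c' hc => hanti (by omega)) divisor_zero ν f
    (fun v => ?_) (fun c hc l hl => ?_)
  · rw [Nat.sub_self, htop]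
    exact Submodule.mem_top
  · refine h.alt_mem hP (U := U) (c := c) (s := ν - c) hU.1 (fun x hx => ?_) l hl f hf
    rw [Nat.add_sub_cancel' hc.le]
    exact hU.2 x hx

end

end Pool.Agent.V5helper93.GTC
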