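import Pool.Agent.V5helper93.GTC.Hyp
import Pool.Agent.V5helper93.GTC.Main5
import Pool.Agent.N171.Bg7

/-!
# Hyperelliptic Jacobians with large Galois groups: the hypotheses of the Künneth formula
-/

set_option linter.unusedSectionVars false

namespace Pool.Agent.V5helper93.GTC.Hyp

open Polynomial PadicInt Module TensorProduct Pool.Agent.N171 Pool.Agent.N171.TG
  Pool.Agent.N171.Al Pool.Agent.N171.Pm Pool.Agent.N171.Bg Pool.Agent.V5helper93.GTC
  Pool.Agent.H204R3.GP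

noncomputable section

/-- The action on the line by a power of a character. -/
def tw {k Γ : Type} [Field k] [Group Γ] (χ : Γ →* k) (m : ℕ) : Representation k Γ k where
  toFun s := χ s ^ m • LinearMap.id
  map_one' := by
    rw [map_one, one_pow, one_smul]
    rfl
  map_mul' s s' := by
    refine LinearMap.ext fun x => ?_
    change χ (s * s') ^ m * x = χ s ^ m * (χ s' ^ m * x)
    rw [map_mul, mul_pow, mul_assoc]

variable {K F : Type} [Field K] [Field F] [Algebra K F] [IsAlgClosed F]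

theorem free_tw {τ : Type} [Fintype τ] (α : τ → F) (h6 : 6 ≤ Fintype.card τ) (m : ℕ) :
    FreeG (K := K) (fun _ : Unit => α) (tw (ratChar (cyc K F)) m) := by
  refine ⟨1, Basis.singleton (Fin 1) ℚ_[2], fun s i j => ?_, fun _ => Or.inl ?_⟩
  · refine ⟨((cyc K F s : ℤ_[2]ˣ) : ℤ_[2]) ^ m - 1, ?_⟩
    have hij : i = j := Subsingleton.elim _ _
    rw [if_pos hij, pow_zero, one_mul, Basis.singleton_apply, Basis.singleton_repr]
    change ratChar (cyc K F) s ^ m * 1 = _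
    push_cast
    rw [mul_one, add_sub_cancel]
    rfl
  · have h1 : (6 : ℕ).factorial ≤ (Fintype.card τ).factorial := Nat.factorial_le h6
    refine lt_of_lt_of_le ?_ h1
    decide

/-- **The hypotheses.** -/
theorem ctx_P (g : F[X]) [IsDomain (RG g)]
    (hg : ∀ s : F ≃ₐ[K] F, g.map ((s : F ≃+* F) : F →+* F) = g)
    {τ : Type} [Fintype τ] [DecidableEq τ] (α : τ → F) [Hyp α] (hα : g = fP α)
    (h2 : (2 : F) ≠ 0) (h6 : 6 ≤ Fintype.card τ)
    (hbig : ∀ π : Equiv.Perm τ, Equiv.Perm.sign π = 1 →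
      ∃ s : F ≃ₐ[K] F, ∀ k, s (α k) = α (π k)) :
    ∃ (_ : FiniteDimensional ℚ_[2] (ℚ_[2] ⊗[ℤ_[2]] TateMod 2 (ClG (RG g))))
      (ω : (ℚ_[2] ⊗[ℤ_[2]] TateMod 2 (ClG (RG g))) →ₗ[ℚ_[2]]
        (ℚ_[2] ⊗[ℤ_[2]] TateMod 2 (ClG (RG g))) →ₗ[ℚ_[2]] ℚ_[2]),
      ∀ (W : Type) [AddCommGroup W] [Module ℚ_[2] W]
        (τW : Representation ℚ_[2] (F ≃ₐ[K] F) W), FreeG (fun _ : Unit => α) τW →
        Ctx (ratRep (rhoG hg)) (ratChar (cyc K F)) ω τW := by
  classical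
  have hfin0 : Module.Finite ℤ_[2] (TateMod 2 (ClG (RG g))) := by
    subst hα
    exact instFinP (fun _ : Unit => α) ()
  -- Tate classes
  obtain ⟨ω₀, hω₀, hspl⟩ := Bg.splits_P.{0} (fun _ : Unit => g) (fun _ => hg) (fun _ : Unit => α)
    (fun _ => hα) h2 (fun _ => h6) (fun _ => hbig) (fun i j hij => absurd rfl hij)
  have hgen : TateGeneratedInDegreeTwo (ratRep (rhoG hg)) (ratChar (cyc K F)) := by
    refine tate_of_lef (Q := Unit) (ratRep (rhoG hg)) (ratChar (cyc K F)) ω₀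
      (fun q s u v => (hω₀ q).equiv s u v) fun n m f hf => ?_
    let E : (ℚ_[2] ⊗[ℤ_[2]] (∀ _ : Unit, TateMod 2 (ClG (RG g)))) →ₗ[ℚ_[2]]
        (ℚ_[2] ⊗[ℤ_[2]] TateMod 2 (ClG (RG g))) :=
      LinearMap.baseChange ℚ_[2] (LinearMap.proj ())
    let S : (ℚ_[2] ⊗[ℤ_[2]] TateMod 2 (ClG (RG g))) →ₗ[ℚ_[2]]
        (ℚ_[2] ⊗[ℤ_[2]] (∀ _ : Unit, TateMod 2 (ClG (RG g)))) :=
      LinearMap.baseChange ℚ_[2] (LinearMap.pi fun _ => LinearMap.id)
    have h1 := (hspl ℚ_[2] (tw (ratChar (cyc K F)) m) (free_tw α h6 m)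
      (ℚ_[2] ⊗[ℤ_[2]] TateMod 2 (ClG (RG g))) (ratRep (rhoG hg)) E S (fun x => ?_)
      (fun s x => ?_) ω₀ (fun i x y => rfl)).2 n m f ?_
    · refine Submodule.span_le.2 ?_ h1
      rintro h ⟨B, g', w, hB, hg', -, hh⟩
      have h3 : h = w • g' := by
        refine AlternatingMap.ext fun v => ?_
        rw [hh, smul_eq_mul, mul_comm]
        rfl
      rw [SetLike.mem_coe, h3]
      exact Submodule.smul_mem _ _ (Submodule.subset_span ⟨B, hB, hg'⟩)
    · have h3 : E.comp S = LinearMap.id := by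
        refine ext_tmul fun y => ?_
        rfl
      exact LinearMap.congr_fun h3 x
    · have h3 : E.comp (ratRep (piRep fun _ : Unit => rhoG hg) s) =
          (ratRep (rhoG hg) s).comp E := by
        refine ext_tmul fun y => ?_
        rfl
      exact LinearMap.congr_fun h3 x
    · obtain ⟨Δ, hΔ, h3⟩ := hf
      exact ⟨Δ, hΔ, fun s hs v => h3 s hs v⟩
  subst hα
  obtain ⟨D, hD⟩ := exists_perms (fun _ : Unit => α) (fun _ => hg) h2 (fun _ => h6) (fun _ => hbig)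
  have hfin : Module.Finite ℤ_[2] (TateMod 2 (ClG (RG (fP α)))) := instFinP (fun _ : Unit => α) ()
  refine ⟨inferInstance, BV (BP (fun _ : Unit => α) h2 ()), fun W _ _ τW hτ => ?_⟩
  obtain ⟨d, b, hb, hfr⟩ := hτ
  obtain ⟨t, ht, -⟩ := lat_data hb
  have hPX : PermsX (fun _ : Unit => rhoG hg) (B := fun _ => BP (fun _ : Unit => α) h2 ())
      (D := fun _ => D ()) (fun _ => cyc K F) (fun _ => prm α hg) :=
    ⟨hD.frame, hD.inv, hD.act, hD.onto, hD.card, hD.odd⟩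
  have hmove : ∃ s, (∃ M, t s = 1 + (2 : ℤ_[2]) • M) ∧ prm α hg s ≠ 1 := by
    rcases hfr () with h | ⟨s, hs, k, hk⟩
    · by_contra h3
      push Not at h3
      exact absurd (TG.count_leW (hD.onto ()) t h3) (not_le.2 h)
    · obtain ⟨Z, hZ⟩ := lat_pow ht hs
      exact ⟨s, ⟨Z, by rw [hZ, pow_one]⟩, fun h => hk ((prm_one α hg).1 h k)⟩
  have hB := hD.frame ()
  have htan : ∀ x : TateMod 2 (ClG (RG (fP α))), ∀ m : ℕ, ∃ n₀ : ℕ, ∀ n, n₀ ≤ n →
      ∃ (σ : F ≃ₐ[K] F) (Z : Module.End ℤ_[2] (TateMod 2 (ClG (RG (fP α)))))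
        (Z' : Matrix (Fin d) (Fin d) ℤ_[2]),
      rhoG hg σ = 1 + (2 : ℤ_[2]) ^ n • (Eo (BP (fun _ : Unit => α) h2 ()) x x +
        (2 : ℤ_[2]) ^ m • Z) ∧ t σ = 1 + (2 : ℤ_[2]) ^ (n + m) • Z' := fun x =>
    tan_one hPX hmove (Eo_spQ (BP (fun _ : Unit => α) h2 ()) hB.alt (p1 _) (fun _ _ => rfl)
      (fun _ _ _ h => absurd (Subsingleton.elim _ _) h) (fun _ _ _ => rfl) () x)
  exact ⟨BV_alt _ hB.alt, BV_nd _ hB.nd, BV_inv (rhoG hg) (cyc K F) _ (hD.inv ()),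
    lin_tan htan, hgen, fun m U hU a => der ht htan m U hU a⟩

end

end Pool.Agent.V5helper93.GTC.Hyp
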