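import Pool.Agent.TH776.FM.RepDefs
import Pool.Agent.TH776.FL.Defs

/-!
# Representations with many infinitesimal transvections
-/

set_option linter.unusedSectionVars false

namespace Pool.Agent.V5helper93.GTC

open Module Pool.Agent.H204R3.GP Pool.Agent.TH776.FM Pool.Agent.TH776.FL

variable {k V Γ : Type} [Field k] [AddCommGroup V] [Module k V] [Group Γ]

/-- The endomorphism `Y` satisfies all the linear conditions which are satisfied by `ρ(s) - 1` for all
`s` in a subgroup of finite index. -/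
def LinTan (ρ : Representation k Γ V) (Y : Module.End k V) : Prop :=
  ∀ Δ : Subgroup Γ, Δ.FiniteIndex → ∀ f : Module.End k V →ₗ[k] k, (∀ s ∈ Δ, f (ρ s) = f 1) →
    f Y = 0

variable {ρ : Representation k Γ V} {χ : Γ →* k} {ω : V →ₗ[k] V →ₗ[k] k}

theorem LinTan.stable {Y : Module.End k V} (h : LinTan ρ Y) (Δ : Subgroup Γ) (hΔ : Δ.FiniteIndex)
    (U : Submodule k V) (hU : ∀ s ∈ Δ, ∀ u ∈ U, ρ s u ∈ U) {u : V} (hu : u ∈ U) : Y u ∈ U := by
  by_contra hcon
  obtain ⟨l, hl1, hl2⟩ := Submodule.exists_le_ker_of_notMem hcon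
  refine hl1 (h Δ hΔ (l.comp (LinearMap.applyₗ u)) fun s hs => ?_)
  change l (ρ s u) = l u
  rw [LinearMap.mem_ker.1 (hl2 (hU s hs u hu)), LinearMap.mem_ker.1 (hl2 hu)]

theorem LinTan.comm {Y : Module.End k V} (h : LinTan ρ Y) (Δ : Subgroup Γ) (hΔ : Δ.FiniteIndex)
    (P : Module.End k V) (hP : ∀ s ∈ Δ, ∀ u, P (ρ s u) = ρ s (P u)) (u : V) :
    P (Y u) = Y (P u) := by
  rw [← sub_eq_zero]
  by_contra hcon
  obtain ⟨l, hl⟩ : ∃ l : V →ₗ[k] k, l (P (Y u) - Y (P u)) ≠ 0 := by
    by_contra h0
    push Not at h0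
    exact hcon ((Module.forall_dual_apply_eq_zero_iff k _).1 h0)
  refine hl (h Δ hΔ (l.comp (P.comp (LinearMap.applyₗ u) -
    LinearMap.applyₗ (P u))) fun s hs => ?_)
  change l (P (ρ s u) - ρ s (P u)) = l (P u - P u)
  rw [hP s hs, sub_self, sub_self]

/-- The infinitesimal transvection `v ↦ ω(a, v) a`. -/
def tv (ω : V →ₗ[k] V →ₗ[k] k) (a : V) : Module.End k V := (ω a).smulRight a

theorem tv_apply (a v : V) : tv ω a v = ω a v • a := rfl

variable [FiniteDimensional k V]

/-- A symplectic representation with many infinitesimal transvections is semisimple. -/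
theorem semisimple_of_tv (halt : ∀ v, ω v v = 0) (hnd : ∀ u, (∀ v, ω v u = 0) → u = 0)
    (hχ : ∀ s u v, ω (ρ s u) (ρ s v) = χ s * ω u v) {S : Set V} (hS : Submodule.span k S = ⊤)
    (htv : ∀ a ∈ S, LinTan ρ (tv ω a)) : FiniteIndexSemisimple ρ := by
  intro Δ hΔ U hU
  have hanti : ∀ u v, ω u v = - ω v u := by
    intro u v
    have h2 := halt (u + v)
    simp only [map_add, LinearMap.add_apply, halt, zero_add, add_zero] at h2
    linear_combination h2
  have hrefl : LinearMap.BilinForm.IsRefl (R := k) ω := by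
    intro x y h
    rw [hanti, h, neg_zero]
  have hdis : U ⊓ LinearMap.BilinForm.orthogonal (R := k) ω U = ⊥ := by
    rw [eq_bot_iff]
    intro u hu
    obtain ⟨hu1, hu2⟩ := Submodule.mem_inf.1 hu
    rw [Submodule.mem_bot]
    by_contra hne
    obtain ⟨a, ha, hau⟩ : ∃ a ∈ S, ω a u ≠ 0 := by
      by_contra hcon
      push Not at hcon
      apply hne
      apply hnd
      intro v
      have h1 : Submodule.span k S ≤ LinearMap.ker (ω.flip u) := by
        rw [Submodule.span_le]
        intro a ha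
        exact hcon a ha
      rw [hS] at h1
      exact h1 (Submodule.mem_top (x := v))
    have h1 := (htv a ha).stable Δ hΔ U hU hu1
    rw [tv_apply] at h1
    have h2 : a ∈ U := (Submodule.smul_mem_iff U hau).1 h1
    exact hau ((LinearMap.BilinForm.mem_orthogonal_iff.1 hu2) a h2)
  refine ⟨LinearMap.BilinForm.orthogonal (R := k) ω U, fun s hs u hu => ?_, ?_⟩
  · rw [LinearMap.BilinForm.mem_orthogonal_iff] at hu ⊢
    intro v hv
    have h1 := hu _ (hU s⁻¹ (Δ.inv_mem hs) v hv)
    have h1' : ω (ρ s⁻¹ v) u = 0 := h1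
    have h2 : v = ρ s (ρ s⁻¹ v) := by
      rw [← Module.End.mul_apply, ← map_mul, mul_inv_cancel, map_one, Module.End.one_apply]
    change ω v (ρ s u) = 0
    rw [h2, hχ, h1', mul_zero]
  · refine LinearMap.BilinForm.isCompl_orthogonal_of_restrict_nondegenerate hrefl ?_
    exact LinearMap.BilinForm.nondegenerate_restrict_of_disjoint_orthogonal _ hrefl
      (disjoint_iff.2 hdis)

/-- Endomorphisms of a symplectic representation with many infinitesimal transvections. -/
theorem rosati_of_tv (hnd : ∀ u, (∀ v, ω v u = 0) → u = 0) (halt : ∀ v, ω v v = 0) {S : Set V}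
    (hS : Submodule.span k S = ⊤) (htv : ∀ a ∈ S, LinTan ρ (tv ω a)) : RosatiTrivial ρ ω := by
  rintro P ⟨Δ, hΔ, hP⟩ u v
  have hanti : ∀ u v, ω u v = - ω v u := by
    intro u v
    have h2 := halt (u + v)
    simp only [map_add, LinearMap.add_apply, halt, zero_add, add_zero] at h2
    linear_combination h2
  have key : ∀ a ∈ S, ω (P a) v = ω a (P v) := by
    intro a ha
    have h1 : ∀ w, ω a w • P a = ω a (P w) • a := by
      intro w
      have h2 := (htv a ha).comm Δ hΔ P hP w
      rwa [tv_apply, tv_apply, map_smul] at h2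
    by_cases h0 : ∃ w, ω a w ≠ 0
    · obtain ⟨w, hw⟩ := h0
      obtain ⟨c, hc⟩ : ∃ c : k, P a = c • a := by
        refine ⟨(ω a w)⁻¹ * ω a (P w), ?_⟩
        rw [mul_smul, ← h1 w, smul_smul, inv_mul_cancel₀ hw, one_smul]
      have h3 := congrArg (fun x => ω x w) (h1 v)
      simp only [map_smul, LinearMap.smul_apply, smul_eq_mul] at h3
      rw [hc, map_smul, LinearMap.smul_apply, smul_eq_mul] at h3 ⊢
      have h4 : (c * ω a v) * ω a w = ω a (P v) * ω a w := by rw [← h3]; ring
      exact mul_right_cancel₀ hw h4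
    · push Not at h0
      have ha0 : a = 0 := hnd a fun w => by rw [hanti, h0 w, neg_zero]
      rw [ha0, map_zero, map_zero, LinearMap.zero_apply, LinearMap.zero_apply]
  have h1 : Submodule.span k S ≤ LinearMap.ker (((ω.flip v).comp P) - ω.flip (P v)) := by
    rw [Submodule.span_le]
    intro a ha
    rw [SetLike.mem_coe, LinearMap.mem_ker, LinearMap.sub_apply]
    change ω (P a) v - ω a (P v) = 0
    rw [key a ha, sub_self]
  rw [hS] at h1
  have h2 := h1 (Submodule.mem_top (x := u))
  rw [LinearMap.mem_ker, LinearMap.sub_apply] at h2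
  exact sub_eq_zero.1 h2

end Pool.Agent.V5helper93.GTC
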