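import Pool.Agent.V5helper93.GTC.WF
import Pool.Agent.V5helper93.GTC.Trans
import Pool.Agent.V5helper93.GTC.Defs
import Pool.Agent.Y128.GT.Fin

/-!
# The values modulo products of a stable space of forms
-/

set_option linter.unusedSectionVars false

namespace Pool.Agent.V5helper93.GTC

open Module TensorProduct Polynomial Pool.Agent.H204R3.SP Pool.Agent.H204R3.GP
  Pool.Agent.W529.Ta Pool.Agent.Y128.GT Pool.Agent.W522.U Pool.Agent.TH776.FM Pool.Agent.TH776.FL

noncomputable section

/-! ### polynomials -/

section poly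

variable {K L : Type} [Field K] [IsAlgClosed K] [AddCommGroup L] [Module K L]

theorem eval_ms (S : Multiset K) (r : K) (h : ((S.map fun r => (X - C r : K[X])).prod).eval r = 0) :
    r ∈ S := by
  rw [Polynomial.eval_multiset_prod, Multiset.prod_eq_zero_iff, Multiset.map_map] at h
  obtain ⟨β, hβ, h5⟩ := Multiset.mem_map.1 h
  rw [Function.comp_apply, Polynomial.eval_sub, Polynomial.eval_X, Polynomial.eval_C,
    sub_eq_zero] at h5
  rwa [h5]

/-- A polynomial which kills the operator is the product of the polynomials with the good and the bad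
eigenvalues. -/
theorem split_poly [FiniteDimensional K L] (T : Module.End K L) (good : K → Prop) :
    ∃ G B : K[X], aeval T (B * G) = 0 ∧ (∀ r, G.eval r = 0 → good r) ∧
      (∀ r, B.eval r = 0 → ¬ good r) := by
  classical
  let S := (minpoly K T).roots
  refine ⟨((S.filter good).map fun r => (X - C r : K[X])).prod,
    ((S.filter fun r => ¬ good r).map fun r => (X - C r : K[X])).prod, ?_, fun r hr => ?_,
    fun r hr => ?_⟩
  · rw [mul_comm, ← Multiset.prod_add, ← Multiset.map_add, Multiset.filter_add_not]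
    have h : (S.map fun r => (X - C r : K[X])).prod = minpoly K T :=
      ((IsAlgClosed.splits (minpoly K T)).eq_prod_roots_of_monic
        (minpoly.monic (Algebra.IsIntegral.isIntegral T))).symm
    rw [h, minpoly.aeval]
  · exact (Multiset.mem_filter.1 (eval_ms _ r hr)).2
  · exact (Multiset.mem_filter.1 (eval_ms _ r hr)).2

/-- A vector killed by a polynomial is in the image of the polynomials prime to it. -/
theorem mem_range_of_coprime (T : Module.End K L) {B Q : K[X]}
    (h : ∀ r, B.eval r = 0 → Q.eval r ≠ 0) {μ : L} (hμ : aeval T B μ = 0) :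
    ∃ μ' : L, μ = aeval T Q μ' := by
  have hc : IsCoprime B Q := by
    rw [Polynomial.isCoprime_iff_aeval_ne_zero_of_isAlgClosed K K]
    intro a
    rw [Polynomial.coe_aeval_eq_eval]
    by_cases h0 : B.eval a = 0
    · exact Or.inr (h a h0)
    · exact Or.inl h0
  obtain ⟨u, v, huv⟩ := hc
  refine ⟨aeval T v μ, ?_⟩
  have h1 := congrArg (fun P => aeval T P μ) huv
  simp only [map_add, map_mul, map_one, LinearMap.add_apply, Module.End.mul_apply,
    Module.End.one_apply, hμ, map_zero, zero_add] at h1
  rw [← Module.End.mul_apply, ← map_mul, mul_comm, map_mul, Module.End.mul_apply]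
  exact h1.symm

end poly

/-! ### the values -/

section vals

variable {k K V W : Type} [Field k] [Field K] [CharZero k] [CharZero K] [IsAlgClosed K]
  [Algebra k K] [AddCommGroup V] [Module k V] [AddCommGroup W] [Module k W] {ν : Type}
  [Fintype ν] [DecidableEq ν] (b : Basis ν k V) {κ : Type} [Fintype κ] [DecidableEq κ]
  {Γ : Type} [Group Γ] (ρ : Representation k Γ V) (τ : Representation k Γ W)

/-- The forms attached to functionals with bad eigenvalues vanish on vectors of small slope. -/
theorem Fm_vanish {ι : Type} [Fintype ι] [DecidableEq ι] (e : Basis ι K (K ⊗[k] V)) (s : Γ)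
    {α : ι → K} (he : ∀ x, bcr ρ K s⁻¹ (e x) = α x • e x) {B : K[X]} {Q : k[X]}
    {μ : Dual K (K ⊗[k] W)} (hμ : aeval ((τ s).baseChange K).dualMap B μ = 0)
    {f : MultilinearMap k (fun _ : κ => V) W} (hQ : aeval (actW ρ τ s) Q f = 0) (I : κ → ι)
    (h : ∀ r, B.eval r = 0 → aeval ((∏ l, α (I l)) * r) Q ≠ 0) :
    Fm b μ f (fun l => e (I l)) = 0 := by
  set D : Module.End K (Dual K (K ⊗[k] W)) := ((τ s).baseChange K).dualMap with hD
  obtain ⟨μ', hμ'⟩ := mem_range_of_coprime D
    (Q := (Q.map (algebraMap k K)).comp (C (∏ l, α (I l)) * X)) (fun r hr => by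
      rw [Polynomial.eval_comp, Polynomial.eval_mul, Polynomial.eval_C, Polynomial.eval_X,
        Polynomial.eval_map_algebraMap]
      exact h r hr) hμ
  have h1 : aeval D ((Q.map (algebraMap k K)).comp (C (∏ l, α (I l)) * X)) =
      aeval ((∏ l, α (I l)) • D) (Q.map (algebraMap k K)) := by
    rw [Polynomial.aeval_comp]
    congr 1
    rw [map_mul, Polynomial.aeval_C, Polynomial.aeval_X, Algebra.smul_def]
  rw [hμ', h1, ← Fm_poly b ρ τ e s he, hQ, map_zero]
  rfl

end vals

/-! ### integrality -/

/-- An element of all valuation rings is integral. -/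
theorem integral_of_forall {K : Type} [Field K] {x : K} (h : ∀ A : ValuationSubring K, x ∈ A) :
    IsIntegral ℤ x := by
  by_contra hx
  let R : Subring K := (integralClosure ℤ K).toSubring
  have hR : IsIntegrallyClosedIn R K := by
    rw [Subring.isIntegrallyClosedIn_iff]
    intro y hy
    have h1 : IsIntegral (integralClosure ℤ K) y := hy
    exact isIntegral_trans y h1
  obtain ⟨A, -, hA⟩ := Subring.exists_le_valuationSubring_of_isIntegrallyClosedIn
    (R := R) (x := x) hx
  exact hA (h A)

section ids

variable {k V Γ : Type} [Field k] [AddCommGroup V] [Module k V] [Group Γ]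
  {ρ : Representation k Γ V} {χ : Γ →* k}

/-- Conjugates of bilinear Tate forms. -/
theorem tate2_conj {B : V →ₗ[k] V →ₗ[k] k} (hB : IsTate2 ρ χ B) (s : Γ) :
    IsTate2 ρ χ (B.compl₁₂ (ρ s) (ρ s)) := by
  obtain ⟨Δ, hΔ, hB⟩ := hB
  let Δ' : Subgroup Γ := Δ.comap (MulAut.conj s).toMonoidHom
  have hΔ' : Δ'.FiniteIndex := ⟨by
    rw [Subgroup.index_comap_of_surjective Δ (MulAut.conj s).surjective]
    exact hΔ.index_ne_zero⟩
  refine ⟨Δ', hΔ', fun g hg u v => ?_⟩
  have hg' : s * g * s⁻¹ ∈ Δ := hg
  have h1 : ∀ u, ρ s (ρ g u) = ρ (s * g * s⁻¹) (ρ s u) := by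
    intro u
    rw [← Module.End.mul_apply, ← Module.End.mul_apply, ← map_mul, ← map_mul,
      inv_mul_cancel_right]
  rw [LinearMap.compl₁₂_apply, LinearMap.compl₁₂_apply, h1, h1, hB _ hg', map_mul, map_mul]
  have h2 : χ s * χ s⁻¹ = 1 := by rw [← map_mul, mul_inv_cancel, map_one]
  linear_combination (χ g * B (ρ s u) (ρ s v)) * h2

/-- The products are stable under the group. -/
theorem IJ_stable (s : Γ) (j : ℕ) : ∀ (κ : Type) [Fintype κ] [DecidableEq κ]
    (φ : MultilinearMap k (fun _ : κ => V) k), φ ∈ IJ ρ χ j κ →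
      φ.compLinearMap (fun _ => ρ s) ∈ IJ ρ χ j κ := by
  induction j with
  | zero => intro κ _ _ φ _; exact Submodule.mem_top
  | succ j ih =>
    intro κ _ _ φ hφ
    change φ ∈ Submodule.span k _ at hφ
    induction hφ using Submodule.span_induction with
    | zero => exact Submodule.zero_mem _
    | add x y _ _ hx hy =>
      have h : (x + y).compLinearMap (fun _ => ρ s) =
        x.compLinearMap (fun _ => ρ s) + y.compLinearMap (fun _ => ρ s) := rfl
      rw [h]
      exact Submodule.add_mem _ hx hy
    | smul r x _ hx =>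
      have h : (r • x).compLinearMap (fun _ => ρ s) = r • x.compLinearMap (fun _ => ρ s) := rfl
      rw [h]
      exact Submodule.smul_mem _ _ hx
    | mem F hF =>
      obtain ⟨a, b, hab, B, c, hB, hc, rfl⟩ := hF
      have h : (mulB hab B c).compLinearMap (fun _ => ρ s) =
          mulB hab (B.compl₁₂ (ρ s) (ρ s)) (c.compLinearMap (fun _ => ρ s)) := rfl
      rw [h]
      exact mulB_mem ρ χ hab (tate2_conj hB s) (ih _ c hc)

end ids

end

end Pool.Agent.V5helper93.GTC
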