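import Pool.Agent.Y128.GT.Cl

/-!
# Stable spaces of forms with large slopes are in the powers of the ideal

This is the theorem of `Y128.GT.Ind` and `Y128.GT.Cl` with the lower bound of the slopes only, for
spaces of forms which are stable under a subgroup of finite index.
-/

set_option linter.unusedSectionVars false

namespace Pool.Agent.V5helper93.GTC

open Module TensorProduct Polynomial Pool.Agent.H204R3.SP Pool.Agent.H204R3.GP Pool.Agent.W529.Ta
  Pool.Agent.TH131.GHC Pool.Agent.Y128.GT Pool.Agent.W522.U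

noncomputable section

section fr

variable {K : Type} [Field K] [CharZero K] {X : Type} [AddCommGroup X] [Module K X]
  {Γ : Type} [Group Γ] {R : Representation K Γ X} {χ : Γ →* K}
  {ι Q : Type} [Fintype ι] [DecidableEq ι] [Fintype Q] [DecidableEq Q]

/-- The forms with all slopes at least `j`. -/
def LL (Fr : Frame R χ ι Q) (j : ℕ) (κ : Type) [Fintype κ] [DecidableEq κ] :
    Submodule K (MultilinearMap K (fun _ : κ => X) K) where
  carrier := {u | ∀ I : κ → ι, ¬(j ≤ sl Fr I) →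
    u (fun k => Fr.e (I k)) = 0}
  zero_mem' := fun _ _ => rfl
  add_mem' := by
    intro a b ha hb I hI
    change a _ + b _ = 0
    rw [ha I hI, hb I hI, add_zero]
  smul_mem' := by
    intro c a ha I hI
    change c * a _ = 0
    rw [ha I hI, mul_zero]

theorem mem_LL {Fr : Frame R χ ι Q} {j : ℕ} {κ : Type} [Fintype κ] [DecidableEq κ]
    {u : MultilinearMap K (fun _ : κ => X) K} (hu : u ∈ LL Fr j κ) {I : κ → ι}
    (h : u (fun k => Fr.e (I k)) ≠ 0) : j ≤ sl Fr I := by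
  by_contra hcon
  exact h (hu I hcon)

/-- The largest stable space of forms of small level. -/
def VM (Fr : Frame R χ ι Q) (Δ : Subgroup Γ) (j : ℕ) (κ : Type) [Fintype κ] [DecidableEq κ] :
    Submodule K (MultilinearMap K (fun _ : κ => X) K) := sSup {U | St R Δ U ∧ U ≤ LL Fr j κ}

theorem St_VM (Fr : Frame R χ ι Q) (Δ : Subgroup Γ) (j : ℕ) (κ : Type) [Fintype κ]
    [DecidableEq κ] : St R Δ (VM Fr Δ j κ) := by
  intro s hs φ hφ
  have h : VM Fr Δ j κ ≤ (VM Fr Δ j κ).comap (TT (R s)) := by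
    refine sSup_le ?_
    rintro U ⟨hU, hU'⟩ u hu
    have h1 : U ≤ VM Fr Δ j κ := le_sSup ⟨hU, hU'⟩
    exact h1 (hU s hs u hu)
  exact h hφ

theorem VM_LL (Fr : Frame R χ ι Q) (Δ : Subgroup Γ) (j : ℕ) (κ : Type) [Fintype κ]
    [DecidableEq κ] : VM Fr Δ j κ ≤ LL Fr j κ := sSup_le fun _ hU => hU.2

theorem le_VM {Fr : Frame R χ ι Q} {Δ : Subgroup Γ} {j : ℕ} {κ : Type} [Fintype κ]
    [DecidableEq κ] {U : Submodule K (MultilinearMap K (fun _ : κ => X) K)} (h : St R Δ U)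
    (h' : U ≤ LL Fr j κ) : U ≤ VM Fr Δ j κ := le_sSup ⟨h, h'⟩

variable (Fr : Frame R χ ι Q)

/-- Stable spaces of positive coniveau consist of products. -/
theorem le_oneL (hPT : ∀ (m : ℕ) (φ : MultilinearMap K (fun _ : Fin m × Fin 2 => X) K),
      IsTate R χ m φ → φ ∈ Submodule.span K (PT R χ m))
    {Δ : Subgroup Γ} (hΔ : Δ.FiniteIndex) (hproj : HasProjF R Δ) {j : ℕ} {κ : Type} [Fintype κ]
    [DecidableEq κ] {U : Submodule K (MultilinearMap K (fun _ : κ => X) K)} (hU : St R Δ U)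
    (hU' : U ≤ LL Fr (j + 1) κ) : U ≤ IJ R χ 1 κ := by
  classical
  obtain ⟨P, hP1, hP2, hP3⟩ := hproj κ U hU
  let f := Fintype.equivFin κ
  let L : MultilinearMap K (fun _ : κ => X) K →ₗ[K]
      MultilinearMap K (fun _ : Fin (Fintype.card κ) => X) K :=
    { toFun := fun φ => φ.domDomCongr f
      map_add' := fun _ _ => rfl
      map_smul' := fun _ _ => rfl }
  let L' : MultilinearMap K (fun _ : Fin (Fintype.card κ) => X) K →ₗ[K]
      MultilinearMap K (fun _ : κ => X) K :=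
    { toFun := fun φ => φ.domDomCongr f.symm
      map_add' := fun _ _ => rfl
      map_smul' := fun _ _ => rfl }
  have hL : ∀ φ, L' (L φ) = φ := by
    intro φ
    ext v
    change φ (fun i => v (f.symm (f i))) = φ v
    congr 1
    funext i
    rw [Equiv.symm_apply_apply]
  intro u hu
  have h1 : L (P (L' (L u))) ∈ IJ R χ 1 (Fin (Fintype.card κ)) := by
    refine Fr.base (hPT _) Δ hΔ (L.comp (P.comp L')) (fun s hs φ => ?_) (fun φ c hc => ?_) (L u)
    · change L (P (L' (TT (R s) φ))) = TT (R s) (L (P (L' φ)))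
      have h2 : L' (TT (R s) φ) = TT (R s) (L' φ) := rfl
      have h3 : TT (R s) (L (P (L' φ))) = L (TT (R s) (P (L' φ))) := rfl
      rw [h2, hP3 s hs, h3]
    · change P (L' φ) (fun i => Fr.e (c (f i))) = 0
      refine hU' (hP1 _) (fun i => c (f i)) ?_
      intro h2
      have h3 : sl Fr (fun i => c (f i)) = 0 := by
        rw [sl, Finset.card_eq_zero, Finset.filter_eq_empty_iff]
        intro k _
        rw [hc (f k)]
        decide
      omega
  rw [hL, hP2 u hu] at h1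
  exact reindex_one R χ f h1

/-- **Stable spaces of forms of small level** are in the powers of the ideal. -/
theorem le_IJL (hPT : ∀ (m : ℕ) (φ : MultilinearMap K (fun _ : Fin m × Fin 2 => X) K),
      IsTate R χ m φ → φ ∈ Submodule.span K (PT R χ m))
    {Δ : Subgroup Γ} (hΔ : Δ.FiniteIndex) (hproj : HasProjF R Δ) {γ : Γ} {A : ValuationSubring K}
    (hγ : Ord Fr γ A) (hγΔ : γ ∈ Δ) (j : ℕ) : ∀ (κ : Type) [Fintype κ] [DecidableEq κ]
    (U : Submodule K (MultilinearMap K (fun _ : κ => X) K)), St R Δ U → U ≤ LL Fr j κ →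
      U ≤ IJ R χ j κ := by
  classical
  induction j with
  | zero => intro κ _ _ U _ _ u _; exact Submodule.mem_top
  | succ j ih =>
    intro κ _ _ U hU hU'
    set M : Submodule K (MultilinearMap K (fun _ : κ => X) K) :=
      ⨆ (a : κ) (b : κ) (hab : a ≠ b) (B : X →ₗ[K] X →ₗ[K] K) (_ : IsTate2 R χ B),
        (VM Fr Δ j {l : κ // l ≠ a ∧ l ≠ b}).map (mulB hab B) with hM
    have hMle : M ≤ IJ R χ (j + 1) κ := by
      refine iSup_le fun a => iSup_le fun b => iSup_le fun hab => iSup_le fun B => iSup_le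
        fun hB => ?_
      rintro _ ⟨c, hc, rfl⟩
      exact mulB_mem R χ hab hB (ih _ _ (St_VM Fr Δ j _) (VM_LL Fr Δ j _) hc)
    have hmem : ∀ {a b : κ} (hab : a ≠ b) {B : X →ₗ[K] X →ₗ[K] K} (_ : IsTate2 R χ B),
        ∀ c ∈ VM Fr Δ j {l : κ // l ≠ a ∧ l ≠ b}, mulB hab B c ∈ M := by
      intro a b hab B hB c hc
      exact (le_iSup_of_le a (le_iSup_of_le b (le_iSup_of_le hab (le_iSup_of_le B
        (le_iSup_of_le hB le_rfl)))) : (VM Fr Δ j {l : κ // l ≠ a ∧ l ≠ b}).map (mulB hab B) ≤ M)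
        (Submodule.mem_map_of_mem hc)
    have hχ : ∀ s : Γ, χ s ≠ 0 := by
      intro s h
      have h1 : χ (s * s⁻¹) = 1 := by rw [mul_inv_cancel, map_one]
      rw [map_mul, h, zero_mul] at h1
      exact zero_ne_one h1
    have hTTm : ∀ {a b : κ} (hab : a ≠ b) {B : X →ₗ[K] X →ₗ[K] K} (_ : IsTate2 R χ B) (s : Γ)
        (c : MultilinearMap K (fun _ : {l : κ // l ≠ a ∧ l ≠ b} => X) K),
        TT (R s) (mulB hab B c) = χ s • mulB hab B (TT (R s) c) :=
      fun hab B hB s c => TT_mulB hab (fun u v => Fr.tate2_all hB s u v) c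
    have hMSt : St R Δ M := by
      intro s hs φ hφ
      have h : M ≤ M.comap (TT (R s)) := by
        refine iSup_le fun a => iSup_le fun b => iSup_le fun hab => iSup_le fun B => iSup_le
          fun hB => ?_
        rintro _ ⟨c, hc, rfl⟩
        rw [Submodule.mem_comap, hTTm hab hB]
        exact M.smul_mem _ (hmem hab hB _ (St_VM Fr Δ j _ s hs c hc))
      exact h hφ
    obtain ⟨PM, hPM1, hPM2, hPM3⟩ := hproj κ M hMSt
    suffices hkey : VM Fr Δ (j + 1) κ ≤ M from (le_VM hU hU').trans (hkey.trans hMle)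
    by_contra hcon
    set C1 : Module.End K (MultilinearMap K (fun _ : κ => X) K) := 1 - PM with hC1
    have hC1s : ∀ s ∈ Δ, ∀ φ, C1 (TT (R s) φ) = TT (R s) (C1 φ) := by
      intro s hs φ
      rw [hC1, LinearMap.sub_apply, LinearMap.sub_apply, map_sub, hPM3 s hs]
      rfl
    have hC1M : ∀ φ ∈ M, C1 φ = 0 := by
      intro φ hφ
      rw [hC1, LinearMap.sub_apply, hPM2 φ hφ]
      exact sub_self φ
    set VC := (VM Fr Δ (j + 1) κ).map C1 with hVC
    have hVCSt : St R Δ VC := by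
      rintro s hs _ ⟨v, hv, rfl⟩
      rw [← hC1s s hs]
      exact Submodule.mem_map_of_mem (St_VM Fr Δ (j + 1) κ s hs v hv)
    obtain ⟨Λ, hΛ1, hΛ2⟩ := hγ.exists_lam κ
    have hVCLS : VC ≤ LL Fr (j + 1) κ := by
      rintro _ ⟨v, hv, rfl⟩ I hI
      by_contra hne
      obtain ⟨J, hJ1, hJ2⟩ := supp_transfer Fr.e (c := 1) hΛ1 hΛ1 C1 (fun φ => by
        rw [one_smul, hC1s γ hγΔ]) v I hne
      have h1 := mem_LL (VM_LL Fr Δ (j + 1) κ hv) hJ1
      obtain ⟨u, hu1, hu2, hu3, hu⟩ := hΛ2 I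
      obtain ⟨w, hw1, hw2, hw3, hw⟩ := hΛ2 J
      rw [hu, hw, one_mul] at hJ2
      have h2 := hγ.slope_eq ⟨hw1, hw2, hw3⟩ ⟨hu1, hu2, hu3⟩ hJ2
      rw [h2] at h1
      exact hI h1
    obtain ⟨Qp, hQ1, hQ2, hQ3⟩ := hproj κ VC hVCSt
    obtain ⟨v, hv, hvM⟩ := SetLike.not_le_iff_exists.1 hcon
    have hv0 : C1 v ≠ 0 := by
      intro h
      apply hvM
      rw [hC1, LinearMap.sub_apply, sub_eq_zero] at h
      have h' : v = PM v := h
      rw [h']
      exact hPM1 v
    have hV1 := le_oneL Fr hPT hΔ hproj (St_VM Fr Δ (j + 1) κ) (VM_LL Fr Δ (j + 1) κ)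
    obtain ⟨a, b, hab, B, hB, c, hc⟩ : ∃ (a b : κ) (hab : a ≠ b) (B : X →ₗ[K] X →ₗ[K] K)
        (_ : IsTate2 R χ B) (c : MultilinearMap K (fun _ : {l : κ // l ≠ a ∧ l ≠ b} => X) K),
        Qp (C1 (mulB hab B c)) ≠ 0 := by
      by_contra hno
      push Not at hno
      have h1 : ∀ w ∈ IJ R χ 1 κ, Qp (C1 w) = 0 := by
        intro w hw
        change w ∈ Submodule.span K _ at hw
        induction hw using Submodule.span_induction with
        | mem F hF =>
          obtain ⟨a, b, hab, B, c', hB, -, rfl⟩ := hF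
          exact hno a b hab B hB c'
        | zero => rw [map_zero, map_zero]
        | add a b _ _ ha hb => rw [map_add, map_add, ha, hb, add_zero]
        | smul r a _ ha => rw [map_smul, map_smul, ha, smul_zero]
      apply hv0
      rw [← hQ2 (C1 v) (Submodule.mem_map_of_mem hv)]
      exact h1 v (hV1 hv)
    let f : MultilinearMap K (fun _ : {l : κ // l ≠ a ∧ l ≠ b} => X) K →ₗ[K]
        MultilinearMap K (fun _ : κ => X) K := Qp.comp (C1.comp (mulB hab B))
    have hf : ∀ c, f c = Qp (C1 (mulB hab B c)) := fun _ => rfl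
    have hfs : ∀ s ∈ Δ, ∀ c, f (TT (R s) c) = (χ s)⁻¹ • TT (R s) (f c) := by
      intro s hs c
      have h1 : mulB hab B (TT (R s) c) = (χ s)⁻¹ • TT (R s) (mulB hab B c) := by
        rw [hTTm hab hB, smul_smul, inv_mul_cancel₀ (hχ s), one_smul]
      rw [hf, h1, map_smul, map_smul, hC1s s hs, hQ3 s hs, hf]
    have hfVC : ∀ c, f c ∈ VC := fun c => hQ1 _
    have hker : St R Δ (LinearMap.ker f) := by
      intro s hs c hc
      rw [LinearMap.mem_ker] at hc ⊢
      rw [hfs s hs, hc, map_zero, smul_zero]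
    obtain ⟨Pk, hPk1, hPk2, hPk3⟩ := hproj _ _ hker
    have hCSt : St R Δ (LinearMap.ker Pk) := by
      intro s hs c hc
      rw [LinearMap.mem_ker] at hc ⊢
      rw [hPk3 s hs, hc, map_zero]
    have hinj : ∀ c ∈ LinearMap.ker Pk, f c = 0 → c = 0 := by
      intro c hc h0
      rw [← hPk2 c h0]
      exact hc
    have hCLS : LinearMap.ker Pk ≤ LL Fr j {l : κ // l ≠ a ∧ l ≠ b} := by
      intro c hc I hI
      by_contra hne
      obtain ⟨Λ', hΛ'1, hΛ'2⟩ := hγ.exists_lam {l : κ // l ≠ a ∧ l ≠ b}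
      obtain ⟨w, hw, hw1, hw2⟩ := exists_comp Fr.e hΛ'1 (fun u hu => hCSt γ hγΔ u hu) hc (Λ' I)
      have hw0 : w ≠ 0 := by
        rintro rfl
        apply hne
        rw [← hw1 I rfl]
        rfl
      have hfw : f w ≠ 0 := fun h => hw0 (hinj w hw h)
      obtain ⟨I1, hI1⟩ : ∃ I1 : κ → ι, f w (fun k => Fr.e (I1 k)) ≠ 0 := by
        by_contra hno
        push Not at hno
        exact hfw (Basis.ext_multilinear (fun _ => Fr.e) fun I => hno I)
      obtain ⟨J, hJ1, hJ2⟩ := supp_transfer Fr.e (c := (χ γ)⁻¹) hΛ'1 hΛ1 f (fun φ =>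
        hfs γ hγΔ φ) w I1 hI1
      have hJ3 : Λ' J = Λ' I := by
        by_contra h
        exact hJ1 (hw2 J h)
      have h1 := mem_LL (hVCLS (hfVC w)) hI1
      obtain ⟨u1, hu1, hu2, hu3, hu⟩ := hΛ2 I1
      obtain ⟨u2, hv1, hv2, hv3, hv⟩ := hΛ'2 I
      rw [hJ3, hu, hv] at hJ2
      have h2 : χ γ ^ (sl Fr I + 1) * u2 = χ γ ^ sl Fr I1 * u1 := by
        rw [pow_succ, mul_comm _ (χ γ), mul_assoc, hJ2, ← mul_assoc, mul_inv_cancel₀ (hχ γ),
          one_mul]
      have h3 := hγ.slope_eq ⟨hv1, hv2, hv3⟩ ⟨hu1, hu2, hu3⟩ h2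
      have h4 := card_sub hab
      apply hI
      omega
    have hC0 : ∀ c ∈ LinearMap.ker Pk, c = 0 := by
      intro c hc
      refine hinj c hc ?_
      rw [hf, hC1M _ (hmem hab hB c (le_VM hCSt hCLS hc)), map_zero]
    apply hc
    have h1 : c - Pk c ∈ LinearMap.ker Pk := by
      rw [LinearMap.mem_ker, map_sub, hPk2 _ (hPk1 c), sub_self]
    have h2 := hC0 _ h1
    rw [sub_eq_zero] at h2
    rw [← hf, h2]
    exact hPk1 c



end fr

variable {K : Type} [Field K] [CharZero K] {V : Type} [AddCommGroup V] [Module K V]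
  {Γ : Type} [Group Γ] {R : Representation K Γ V} {χ : Γ →* K} {s : ℕ}

/-- **The theorem over an algebraically closed field.** -/
theorem closed_mainL [IsAlgClosed K] [FiniteDimensional K V] (hss : HasProj R)
    (hPT : ∀ (m : ℕ) (φ : MultilinearMap K (fun _ : Fin m × Fin 2 => V) K),
      IsTate R χ m φ → φ ∈ Submodule.span K (PT R χ m)) (hS : Sympl R χ)
    {n : ℕ} (e : Basis (Fin n ⊕ Fin n) K V) (α : Fin n ⊕ Fin n → K) (γ : Γ)
    (he : ∀ x, R γ (e x) = α x • e x) (hαα : ∀ x, α x * α x.swap = χ γ)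
    (A : ValuationSubring K) (hA : ∀ x, α x ∈ A ∧ ((α x)⁻¹ ∈ A ∨ (α x.swap)⁻¹ ∈ A))
    (hqA : χ γ ∈ A) (hq : (χ γ)⁻¹ ∉ A) (j : ℕ) (κ : Type) [Fintype κ] [DecidableEq κ]
    (U : Submodule K (MultilinearMap K (fun _ : κ => V) K))
    (Δ₀ : Subgroup Γ) (hΔ₀ : Δ₀.FiniteIndex)
    (hU : ∀ g ∈ Δ₀, ∀ φ ∈ U, TT (R g) φ ∈ U) (S : Multiset K)
    (hSU : ∀ φ ∈ U, aeval (TT (κ := κ) (R γ)) (S.map fun β => (X - C β : K[X])).prod φ = 0)
    (hSA : ∀ β ∈ S, (χ γ ^ j)⁻¹ * β ∈ A) :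
    U ≤ IJ R χ j κ := by
  classical
  obtain ⟨s, ⟨D⟩⟩ := exists_Reps hss hS
  obtain ⟨m, s', p', Δ9, hΔ9, hsp, hs9, hp9⟩ := D.decomp hss
  let Δ1 : Subgroup Γ := Δ9 ⊓ Δ₀
  have hΔ1 : Δ1.FiniteIndex := inferInstance
  have hs' : ∀ (g : D.Δ), g.1 ∈ Δ1 → ∀ a u, s' a (D.rE g u) = R g.1 (s' a u) :=
    fun g hg => hs9 g hg.1
  have hp' : ∀ (g : D.Δ), g.1 ∈ Δ1 → ∀ a x, p' a (R g.1 x) = D.rE g (p' a x) :=
    fun g hg => hp9 g hg.1
  have hDfi := D.fi
  obtain ⟨N, hN0, hN⟩ := exists_pow_mem (D.Δ ⊓ Δ1) inferInstance γ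
  let g0 : D.Δ := ⟨γ ^ N, hN.1⟩
  have hq0 : χ γ ≠ 0 := by
    intro h0
    apply hq
    rw [h0, inv_zero]
    exact A.zero_mem
  have hα0 : ∀ x, α x ≠ 0 := by
    intro x h0
    apply hq0
    rw [← hαα x, h0, zero_mul]
  have hRN : R g0.1 = R γ ^ N := map_pow R γ N
  have hχN : χ g0.1 = χ γ ^ N := map_pow χ γ N
  have hqA' : χ g0.1 ∈ A := by rw [hχN]; exact A.pow_mem hqA N
  have hq' : (χ g0.1)⁻¹ ∉ A := by
    intro h
    apply hq
    obtain ⟨N', rfl⟩ := Nat.exists_eq_succ_of_ne_zero hN0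
    have h1 : (χ γ)⁻¹ = (χ g0.1)⁻¹ * χ γ ^ N' := by
      rw [hχN, Nat.succ_eq_add_one, pow_succ]
      field_simp
    rw [h1]
    exact A.mul_mem _ _ h (A.pow_mem hqA N')
  obtain ⟨n', Fr, hOrd⟩ := D.exists_frame g0 A
    (fun β v hv => by
      rw [hRN] at hv ⊢
      exact (pow_eig e (R γ) α he N β v hv).1)
    (fun β v hv0 hv => by
      rw [hRN] at hv
      obtain ⟨x, hx⟩ := (pow_eig e (R γ) α he N β v (by
        rw [Module.End.mem_maxGenEigenspace]
        exact ⟨1, by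
          rw [pow_one, LinearMap.sub_apply, LinearMap.smul_apply, Module.End.one_apply, hv,
            sub_self]⟩)).2 hv0
      have h1 : χ g0.1 * β⁻¹ = α x.swap ^ N := by
        rw [hχN, ← hαα x, hx, mul_pow]
        have := pow_ne_zero N (hα0 x)
        field_simp
      refine ⟨?_, ?_, ?_⟩
      · rw [hx]
        exact A.pow_mem (hA x).1 N
      · rw [h1]
        exact A.pow_mem (hA x.swap).1 N
      · rcases (hA x).2 with h | h
        · left
          rw [hx, ← inv_pow]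
          exact A.pow_mem h N
        · right
          rw [h1, ← inv_pow]
          exact A.pow_mem h N) hqA' hq'
  have hPTE := fun m φ hφ => D.tate_gen hss m (hPT m) φ hφ
  let Δ' : Subgroup D.Δ := Δ1.subgroupOf D.Δ
  have hΔ' : Δ'.FiniteIndex := inferInstance
  have hg0 : g0 ∈ Δ' := by
    rw [Subgroup.mem_subgroupOf]
    exact hN.2
  have hproj := Fr.hasProjF D.hasProj hPTE hOrd Δ' hΔ'
  have key : ∀ (w : κ → Fin m), U.map (MultilinearMap.compLinearMapₗ (fun l => s' (w l))) ≤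
      IJ D.rE D.cE j κ := by
    intro w
    refine le_IJL Fr hPTE hΔ' hproj hOrd hg0 j κ _ ?_ ?_
    · rintro g hg _ ⟨φ, hφ, rfl⟩
      refine ⟨TT (R g.1) φ, hU g.1 (Subgroup.mem_subgroupOf.1 hg).2 φ hφ, ?_⟩
      refine MultilinearMap.ext fun v => ?_
      change φ (fun l => R g.1 (s' (w l) (v l))) = φ (fun l => s' (w l) (D.rE g (v l)))
      congr 1
      funext l
      rw [hs' g (Subgroup.mem_subgroupOf.1 hg)]
    · rintro _ ⟨φ, hφ, rfl⟩ I hI
      by_contra hne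
      apply hI
      obtain ⟨Λ, hΛ, hΛu⟩ := hOrd.exists_lam κ
      have h1 : aeval (TT (κ := κ) (R g0.1)) (S.map fun β => (X - C (β ^ N) : K[X])).prod φ = 0 := by
        rw [hRN, TT_pow]
        exact pow_kill _ _ _ _ (hSU φ hφ)
      have h2 := aeval_inter (TT (κ := κ) (R g0.1)) (TT (D.rE g0))
        (MultilinearMap.compLinearMapₗ (fun l => s' (w l))) (fun ψ => by
          refine MultilinearMap.ext fun v => ?_
          change ψ (fun l => R g0.1 (s' (w l) (v l))) = ψ (fun l => s' (w l) (D.rE g0 (v l)))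
          congr 1
          funext l
          rw [hs' g0 hN.2]) (S.map fun β => (X - C (β ^ N) : K[X])).prod φ
      rw [h1, map_zero] at h2
      have h3 := aeval_diag Fr.e hΛ (S.map fun β => (X - C (β ^ N) : K[X])).prod
        (MultilinearMap.compLinearMapₗ (fun l => s' (w l)) φ) I
      rw [← h2] at h3
      have h4 := (mul_eq_zero.1 h3.symm).resolve_right hne
      rw [Polynomial.eval_multiset_prod, Multiset.prod_eq_zero_iff, Multiset.map_map] at h4
      obtain ⟨β, hβ, h5⟩ := Multiset.mem_map.1 h4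
      rw [Function.comp_apply, Polynomial.eval_sub, Polynomial.eval_X, Polynomial.eval_C,
        sub_eq_zero] at h5
      obtain ⟨u, hu, hu', hu0, h6⟩ := hΛu I
      have hcE : D.cE g0 = χ γ ^ N := hχN
      rw [hcE] at h6
      have h7 := hSA β hβ
      refine val_le A (Q := χ γ ^ N) (u := u) (by rw [← hχN]; exact hqA')
          (by rw [← hχN]; exact hq') hu' hu0 ?_
      have h9 : ((χ γ ^ N) ^ j)⁻¹ * ((χ γ ^ N) ^ sl Fr I * u) = ((χ γ ^ j)⁻¹ * β) ^ N := by
        rw [← h6, h5, mul_pow, inv_pow]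
        congr 2
        ring
      rw [h9]
      exact A.pow_mem h7 N
  intro φ hφ
  refine IJ_decomp R χ D.rE D.cE s' p' hsp ?_ φ fun w => key w ⟨φ, hφ, rfl⟩
  rintro a b B ⟨ΔB, hΔB, hB⟩
  have hfi := fi_map D.fi ΔB hΔB
  refine ⟨ΔB.map D.Δ.subtype ⊓ Δ1, inferInstance, ?_⟩
  rintro _ ⟨⟨g, hg, rfl⟩, hg2⟩ u v
  change B (p' a (R g.1 u)) (p' b (R g.1 v)) = χ g.1 * B (p' a u) (p' b v)
  rw [hp' g hg2, hp' g hg2]
  exact hB g hg _ _

end

end Pool.Agent.V5helper93.GTC
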