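import Pool.Agent.V5helper93.GTC.Main

/-!
# The values modulo products of a stable space of forms: the eigenvalues
-/

set_option linter.unusedSectionVars false

namespace Pool.Agent.V5helper93.GTC

open Module TensorProduct Polynomial Pool.Agent.H204R3.SP Pool.Agent.H204R3.GP
  Pool.Agent.W529.Ta Pool.Agent.Y128.GT Pool.Agent.W522.U Pool.Agent.TH776.FM Pool.Agent.TH776.FL

noncomputable section

/-! ### products of eigenvalues -/

section eigs

variable {K : Type} [Field K] {n : ℕ} {α : Fin n ⊕ Fin n → K} {q : K} {A : ValuationSubring K}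
  (hαα : ∀ x, α x * α x.swap = q) (hα : ∀ x, α x ∈ A) (hq0 : q ≠ 0) (hqA : q ∈ A)

/-- The number of the eigenvalues which are not units. -/
def nneg (α : Fin n ⊕ Fin n → K) (A : ValuationSubring K) {m : ℕ} (I : Fin m → Fin n ⊕ Fin n) : ℕ :=
  open Classical in (Finset.univ.filter fun l => (α (I l))⁻¹ ∉ A).card

include hαα hα hq0 hqA in
/-- The inverse of a product of eigenvalues. -/
theorem inv_prod_mem {m c : ℕ} (I : Fin m → Fin n ⊕ Fin n) (hI : nneg α A I ≤ c) :
    q ^ c * (∏ l, α (I l))⁻¹ ∈ A := by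
  classical
  have h0 : ∀ x, α x ≠ 0 := by
    intro x h
    apply hq0
    rw [← hαα x, h, zero_mul]
  have h1 : ∀ l, (if (α (I l))⁻¹ ∉ A then q else 1) * (α (I l))⁻¹ ∈ A := by
    intro l
    split_ifs with h
    · rw [one_mul]
      exact h
    · have h2 : q * (α (I l))⁻¹ = α (I l).swap := by
        rw [← hαα (I l), mul_comm, inv_mul_cancel_left₀ (h0 _)]
      rw [h2]
      exact hα _
  have h2 : q ^ nneg α A I * (∏ l, α (I l))⁻¹ ∈ A := by
    have h3 : q ^ nneg α A I * (∏ l, α (I l))⁻¹ =
        ∏ l, ((if (α (I l))⁻¹ ∉ A then q else 1) * (α (I l))⁻¹) := by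
      rw [Finset.prod_mul_distrib, Finset.prod_inv_distrib, Finset.prod_ite, Finset.prod_const,
        Finset.prod_const_one, mul_one]
      rfl
    rw [h3]
    exact prod_mem fun l _ => h1 l
  obtain ⟨d, rfl⟩ := Nat.exists_eq_add_of_le hI
  rw [pow_add, mul_comm (q ^ _) (q ^ d), mul_assoc]
  exact A.mul_mem _ _ (A.pow_mem hqA d) h2

include hαα hα hqA in
/-- A product of eigenvalues with many factors which are not units. -/
theorem prod_mem_of {m c : ℕ} (hdich : ∀ x, (α x)⁻¹ ∈ A ∨ (α x.swap)⁻¹ ∈ A) (hq0 : q ≠ 0)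
    (I : Fin m → Fin n ⊕ Fin n) (hI : c ≤ nneg α A I) : (q ^ c)⁻¹ * ∏ l, α (I l) ∈ A := by
  classical
  have h0 : ∀ x, α x ≠ 0 := by
    intro x h
    apply hq0
    rw [← hαα x, h, zero_mul]
  have h1 : ∀ l, (if (α (I l))⁻¹ ∉ A then q⁻¹ else 1) * α (I l) ∈ A := by
    intro l
    split_ifs with h
    · rw [one_mul]
      exact hα _
    · have h2 : q⁻¹ * α (I l) = (α (I l).swap)⁻¹ := by
        have h3 := h0 (I l)
        have h4 := h0 (I l).swap
        rw [← hαα (I l)]
        field_simp
      rw [h2]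
      exact (hdich (I l)).resolve_left h
  have h2 : (q ^ nneg α A I)⁻¹ * ∏ l, α (I l) ∈ A := by
    have h3 : (q ^ nneg α A I)⁻¹ * ∏ l, α (I l) =
        ∏ l, ((if (α (I l))⁻¹ ∉ A then q⁻¹ else 1) * α (I l)) := by
      rw [Finset.prod_mul_distrib, Finset.prod_ite, Finset.prod_const,
        Finset.prod_const_one, mul_one, inv_pow]
      rfl
    rw [h3]
    exact prod_mem fun l _ => h1 l
  obtain ⟨d, hd⟩ := Nat.exists_eq_add_of_le hI
  have h4 : (q ^ c)⁻¹ * ∏ l, α (I l) = q ^ d * ((q ^ nneg α A I)⁻¹ * ∏ l, α (I l)) := by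
    rw [hd, pow_add]
    field_simp
  rw [h4]
  exact A.mul_mem _ _ (A.pow_mem hqA d) h2

end eigs

variable {k V W Γ : Type} [Field k] [CharZero k] [AddCommGroup V] [Module k V]
  [FiniteDimensional k V] [AddCommGroup W] [Module k W] [Group Γ]
  {ρ : Representation k Γ V} {χ : Γ →* k} {ω : V →ₗ[k] V →ₗ[k] k}
  {τ : Representation k Γ W}

theorem Ctx.tate (h : Ctx ρ χ ω τ) : IsTateModule ρ χ ω :=
  ⟨h.alt, h.nondeg, h.sim, semisimple_of_tv h.alt h.nondeg h.sim (S := Set.univ)
    (Submodule.span_univ) fun a _ => h.tan a⟩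

theorem Ctx.rosati (h : Ctx ρ χ ω τ) : RosatiTrivial ρ ω :=
  rosati_of_tv h.nondeg h.alt (S := Set.univ) Submodule.span_univ fun a _ => h.tan a

/-- The functionals `λ` such that `λ ∘ f` is a combination of products for all `f` in `U`. -/
def LU (ρ : Representation k Γ V) (χ : Γ →* k) (j : ℕ) {m : ℕ}
    (U : Submodule k (MultilinearMap k (fun _ : Fin m => V) W)) : Submodule k (Dual k W) where
  carrier := {l | ∀ f ∈ U, l.compMultilinearMap f ∈ IJ ρ χ j (Fin m)}
  zero_mem' := fun f _ => by
    have h : (0 : Dual k W).compMultilinearMap f = 0 := rfl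
    rw [h]
    exact Submodule.zero_mem _
  add_mem' := fun {l l'} hl hl' f hf => by
    have h : (l + l').compMultilinearMap f = l.compMultilinearMap f + l'.compMultilinearMap f := rfl
    rw [h]
    exact Submodule.add_mem _ (hl f hf) (hl' f hf)
  smul_mem' := fun c l hl f hf => by
    have h : (c • l).compMultilinearMap f = c • l.compMultilinearMap f := rfl
    rw [h]
    exact Submodule.smul_mem _ _ (hl f hf)

/-- The values modulo products. -/
def YU (ρ : Representation k Γ V) (χ : Γ →* k) (j : ℕ) {m : ℕ}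
    (U : Submodule k (MultilinearMap k (fun _ : Fin m => V) W)) : Submodule k W :=
  (LU ρ χ j U).dualCoannihilator

theorem YU_stable {j m : ℕ} {U : Submodule k (MultilinearMap k (fun _ : Fin m => V) W)}
    (hU : ∀ s, ∀ f ∈ U, actW ρ τ s f ∈ U) (s : Γ) : ∀ y ∈ YU ρ χ j U, τ s y ∈ YU ρ χ j U := by
  intro y hy
  rw [YU, Submodule.mem_dualCoannihilator] at hy ⊢
  intro l hl
  refine hy (l.comp (τ s)) fun f hf => ?_
  have h1 := IJ_stable (ρ := ρ) (χ := χ) s j (Fin m) _ (hl _ (hU s f hf))
  have h2 : (l.comp (τ s)).compMultilinearMap f =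
      (l.compMultilinearMap (actW ρ τ s f)).compLinearMap (fun _ => ρ s) := by
    ext v
    change l (τ s (f v)) = l (τ s (f fun i => ρ s⁻¹ (ρ s (v i))))
    simp only [rho_inv]
  rw [h2]
  exact h1

theorem dualMap_aeval {K L : Type} [Field K] [AddCommGroup L] [Module K L] (T : Module.End K L)
    (P : K[X]) (l : Dual K L) (x : L) : aeval T.dualMap P l x = l (aeval T P x) := by
  have h1 : ∀ (n : ℕ) (l : Dual K L) (x : L), (T.dualMap ^ n) l x = l ((T ^ n) x) := by
    intro n
    induction n with
    | zero => intro l x; rfl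
    | succ n ih =>
      intro l x
      rw [pow_succ', Module.End.mul_apply, LinearMap.dualMap_apply, ih, pow_succ,
        Module.End.mul_apply]
  induction P using Polynomial.induction_on' with
  | add P Q hP hQ =>
    rw [map_add, map_add, LinearMap.add_apply, LinearMap.add_apply, LinearMap.add_apply, map_add,
      hP, hQ]
  | monomial n a =>
    rw [Polynomial.aeval_monomial, Polynomial.aeval_monomial, Module.End.mul_apply,
      Module.End.mul_apply, Module.algebraMap_end_apply, Module.algebraMap_end_apply,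
      LinearMap.smul_apply, h1, map_smul]

/-- The eigenvalues on a stable subspace. -/
theorem root_of_kill {K : Type} [Field K] [Algebra k K] [FiniteDimensional k W]
    (T : Module.End k W) (Y : Submodule k W) (hY : ∀ y ∈ Y, T y ∈ Y) (G : K[X])
    (hG : ∀ y ∈ Y, aeval (T.baseChange K) G ((1 : K) ⊗ₜ[k] y) = 0) (β : K)
    (hβ : aeval β (T.restrict hY).charpoly = 0) : G.eval β = 0 := by
  set TY : Module.End k Y := T.restrict hY with hTY
  have h1 : (TY.baseChange K).charpoly.IsRoot β := by
    rw [LinearMap.charpoly_baseChange, Polynomial.IsRoot.def, Polynomial.eval_map_algebraMap]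
    exact hβ
  have h2 : Module.End.HasEigenvalue (TY.baseChange K) β :=
    (Module.End.hasEigenvalue_iff_isRoot_charpoly _ _).2 h1
  obtain ⟨z, hz⟩ := h2.exists_hasEigenvector
  let ιK : (K ⊗[k] Y) →ₗ[K] (K ⊗[k] W) := Y.subtype.baseChange K
  have hinj : Function.Injective ιK :=
    Module.Flat.lTensor_preserves_injective_linearMap (M := K) Y.subtype Y.injective_subtype
  have hcomm : ∀ x, T.baseChange K (ιK x) = ιK (TY.baseChange K x) := by
    intro x
    induction x with
    | zero => rw [map_zero, map_zero, map_zero, map_zero]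
    | add x y hx hy => rw [map_add, map_add, hx, hy, map_add, map_add]
    | tmul c y => rfl
  have h3 : T.baseChange K (ιK z) = β • ιK z := by
    rw [hcomm, hz.apply_eq_smul, map_smul]
  have h4 : ∀ x, aeval (T.baseChange K) G (ιK x) = 0 := by
    intro x
    induction x with
    | zero => rw [map_zero, map_zero]
    | add x y hx hy => rw [map_add, map_add, hx, hy, add_zero]
    | tmul c y =>
      have h5 : ιK (c ⊗ₜ[k] y) = c • ((1 : K) ⊗ₜ[k] (y : W)) := by
        change c ⊗ₜ[k] (y : W) = _
        rw [TensorProduct.smul_tmul', smul_eq_mul, mul_one]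
      rw [h5, map_smul, hG _ y.2, smul_zero]
  have hne : ιK z ≠ 0 := by
    intro h0
    exact hz.2 (hinj (by rw [h0, map_zero]))
  have h6 : Module.End.HasEigenvector (T.baseChange K) β (ιK z) := by
    rw [Module.End.hasEigenvector_iff, Module.End.mem_eigenspace_iff]
    exact ⟨h3, hne⟩
  have h7 := Module.End.aeval_apply_of_hasEigenvector (p := G) h6
  rw [h4] at h7
  exact (smul_eq_zero.1 h7.symm).resolve_right hne

end

end Pool.Agent.V5helper93.GTC
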