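import Pool.Agent.V5helper93.GTC.Main2

/-!
# The values modulo products of a stable space of forms: their twists are entire
-/

set_option linter.unusedSectionVars false

namespace Pool.Agent.V5helper93.GTC

open Module TensorProduct Polynomial Pool.Agent.H204R3.SP Pool.Agent.H204R3.GP
  Pool.Agent.W529.Ta Pool.Agent.Y128.GT Pool.Agent.W522.U Pool.Agent.TH776.FM Pool.Agent.TH776.FL

noncomputable section

variable {k V W Γ : Type} [Field k] [CharZero k] [AddCommGroup V] [Module k V]
  [FiniteDimensional k V] [AddCommGroup W] [Module k W] [FiniteDimensional k W] [Group Γ]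
  {ρ : Representation k Γ V} {χ : Γ →* k} {ω : V →ₗ[k] V →ₗ[k] k}
  {τ : Representation k Γ W}

theorem SS_tv (a a' : V) : SS ω a a' = tv ω (a + a') - tv ω a - tv ω a' := by
  refine LinearMap.ext fun v => ?_
  simp only [SS_apply, LinearMap.sub_apply, tv_apply, map_add, LinearMap.add_apply, smul_add,
    add_smul]
  abel

theorem SS_bc {K : Type} [Field K] [Algebra k K] (a a' : V) :
    SS (bcb K ω) ((1 : K) ⊗ₜ[k] a) ((1 : K) ⊗ₜ[k] a') = (SS ω a a').baseChange K := by
  refine LinearMap.ext fun z => ?_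
  induction z with
  | zero => rw [map_zero, map_zero]
  | add x y hx hy => rw [map_add, map_add, hx, hy]
  | tmul c v =>
    rw [SS_apply, LinearMap.baseChange_tmul, SS_apply, bcb_tmul, bcb_tmul, tmul_add, tmul_smul,
      tmul_smul]
    simp only [one_mul, TensorProduct.smul_tmul', smul_eq_mul, mul_one]

theorem field1 {K : Type} [Field K] {P q : K} (hP : P ≠ 0) (hq : q ≠ 0) (r : K) (c s : ℕ) :
    r / q ^ s = (P * r / q ^ (c + s)) * (q ^ c * P⁻¹) := by
  rw [pow_add]
  field_simp

theorem field2 {K : Type} [Field K] {x y : K} (hx : x ≠ 0) (hy : y ≠ 0) :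
    x⁻¹ = (x * y)⁻¹ * y := by
  field_simp

/-- **The values modulo products.** -/
theorem Ctx.entire (h : Ctx ρ χ ω τ) {p a : ℕ} [hp : Fact p.Prime] (ha : 0 < a) {γ : Γ}
    (hγ : OrdinaryFrobenius ρ χ p a γ) {m c s : ℕ}
    {U : Submodule k (MultilinearMap k (fun _ : Fin m => V) W)}
    (hU : ∀ s, ∀ f ∈ U, actW ρ τ s f ∈ U) (hE : EntireOn p a (c + s) (actW ρ τ γ⁻¹) U) :
    EntireOn p a s (τ γ⁻¹) (YU ρ χ (c + 1) U) := by
  classical
  let K := AlgebraicClosure k
  obtain ⟨Q, hQm, hQU, hQβ⟩ := hE
  -- a symplectic basis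
  obtain ⟨R₀, _, _, b, inv, jj, hinv, hne, hjj, hj1, hω⟩ := exists_darboux (finrank k V) V ω h.alt
    h.nondeg le_rfl
  -- the eigenvalues of the Frobenius element
  have hA := h.tate
  have hss : HasProj (bcr ρ K) := hasProj_bcr ρ K hA.semisimple
  have hPT : ∀ (m : ℕ) (φ : MultilinearMap K (fun _ : Fin m × Fin 2 => K ⊗[k] V) K),
      IsTate (bcr ρ K) (bcc χ K) m φ → φ ∈ Submodule.span K (PT (bcr ρ K) (bcc χ K) m) :=
    fun m φ hφ => ascend b ρ χ (fun ψ hψ => multi_of_gen ρ χ h.gen m ψ hψ) φ hφ
  have hS := symplectic_of_rosati hA h.rosati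
  have hnd := left_nondeg ω h.alt h.nondeg
  obtain ⟨g, e, α, he, hαα⟩ := exists_eigbasis (bcr ρ K) (bcc χ K) (bcb K ω) (bcb_alt h.alt)
    (bcb_nondeg_left ω h.nondeg hnd) (bcb_inv ρ χ ω h.sim) γ
    (semisimple_bc K (ρ γ) hγ.semisimple)
  have hdim : finrank k V / 2 = g := by
    have h1 : finrank K (K ⊗[k] V) = finrank k V := Module.finrank_baseChange
    rw [Module.finrank_eq_card_basis e, Fintype.card_sum, Fintype.card_fin] at h1
    omega
  obtain ⟨P, hP, hPc⟩ := hγ.ordinary
  rw [hdim] at hPc
  have hPK : P.map (Int.castRingHom K) = ∏ x, (X - C (α x)) := by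
    rw [← charpoly_eigbasis e (bcr ρ K γ) α he]
    change _ = ((ρ γ).baseChange K).charpoly
    rw [LinearMap.charpoly_baseChange, ← hP, Polynomial.map_map]
    congr 1
  set q : K := (p : K) ^ a with hq
  have hχ : bcc χ K γ = q := by
    rw [bcc_apply, hγ.cyc, map_pow, map_natCast]
  have hααq : ∀ x, α x * α x.swap = q := fun x => by rw [hαα, hχ]
  have hp0 : (p : K) ≠ 0 := Nat.cast_ne_zero.2 hp.out.ne_zero
  have hq0 : q ≠ 0 := pow_ne_zero _ hp0
  have hα0 : ∀ x, α x ≠ 0 := by
    intro x h0
    apply hq0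
    rw [← hααq x, h0, zero_mul]
  have hPm : P.Monic := by
    refine Polynomial.monic_of_injective (RingHom.injective_int (Int.castRingHom K)) ?_
    rw [hPK]
    exact monic_prod_of_monic _ _ fun x _ => monic_X_sub_C _
  have hαint : ∀ x, IsIntegral ℤ (α x) := by
    intro x
    refine ⟨P, hPm, ?_⟩
    have h1 : (P.map (Int.castRingHom K)).eval (α x) = 0 := by
      rw [hPK, eval_prod]
      exact Finset.prod_eq_zero (Finset.mem_univ x) (by rw [eval_sub, eval_X, eval_C, sub_self])
    rw [← h1, ← eval_map]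
    exact congrArg (fun t : ℤ →+* K => (P.map t).eval (α x)) (RingHom.ext_int _ _)
  have he' : ∀ x, bcr ρ K γ⁻¹⁻¹ (e x) = α x • e x := fun x => by rw [inv_inv, he]
  have hYst := YU_stable (χ := χ) (j := c + 1) hU
  set T := τ γ⁻¹ with hT
  refine ⟨(T.restrict (hYst γ⁻¹)).charpoly, LinearMap.charpoly_monic _, fun y hy => ?_,
    fun β hβ => ?_⟩
  · have h1 := aeval_inter (T.restrict (hYst γ⁻¹)) T (YU ρ χ (c + 1) U).subtype (fun _ => rfl)
      (T.restrict (hYst γ⁻¹)).charpoly ⟨y, hy⟩
    rw [LinearMap.aeval_self_charpoly, LinearMap.zero_apply, map_zero] at h1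
    exact h1.symm
  refine integral_of_forall fun A => ?_
  have hαA : ∀ x, α x ∈ A := fun x => mem_of_integral A (hαint x)
  have hqA : q ∈ A := A.pow_mem (natCast_mem A p) a
  -- the good and the bad eigenvalues
  set D : Module.End K (Dual K (K ⊗[k] W)) := (T.baseChange K).dualMap with hD
  obtain ⟨G, B, hGB, hG, hB⟩ := split_poly D (fun r => r / q ^ s ∈ A)
  -- it suffices to prove that the good part kills the values
  suffices hkey : ∀ l : Dual K (K ⊗[k] W), ∀ y ∈ YU ρ χ (c + 1) U,
      (aeval D G l) ((1 : K) ⊗ₜ[k] y) = 0 by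
    refine hG β (root_of_kill T _ (hYst γ⁻¹) G (fun y hy => ?_) β hβ)
    refine (Module.forall_dual_apply_eq_zero_iff K _).1 fun l => ?_
    rw [← dualMap_aeval]
    exact hkey l y hy
  intro l y hy
  set μ := aeval D G l with hμ
  have hBμ : aeval D B μ = 0 := by
    rw [hμ, ← Module.End.mul_apply, ← map_mul, hGB, LinearMap.zero_apply]
  -- the forms vanish on vectors of small slopes
  have hvan : ∀ f ∈ U, ∀ I : Fin m → Fin g ⊕ Fin g, q ^ c * (∏ l, α (I l))⁻¹ ∈ A →
      Fm b μ f (fun l => e (I l)) = 0 := by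
    intro f hf I hI
    refine Fm_vanish b ρ τ e γ⁻¹ he' hBμ (hQU f hf) I fun r hr h0 => hB r hr ?_
    have h1 := mem_of_integral A (hQβ _ h0)
    have h2 : r / q ^ s = ((∏ l, α (I l)) * r / q ^ (c + s)) * (q ^ c * (∏ l, α (I l))⁻¹) := by
      exact field1 (Finset.prod_ne_zero_iff.2 fun l _ => hα0 _) hq0 r c s
    rw [h2]
    exact A.mul_mem _ _ h1 hI
  -- the forms are combinations of products
  have hIJ : ∀ f ∈ U, Fm b μ f ∈ IJ (bcr ρ K) (bcc χ K) (c + 1) (Fin m) := by
    by_cases hpA : ((p : K))⁻¹ ∈ A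
    · intro f hf
      have h1 : Fm b μ f = 0 := by
        refine Basis.ext_multilinear (fun _ => e) fun I => ?_
        rw [hvan f hf I]
        · rfl
        refine A.mul_mem _ _ (A.pow_mem hqA c) ?_
        rw [← Finset.prod_inv_distrib]
        refine prod_mem fun l _ => ?_
        have h2 : (α (I l))⁻¹ = q⁻¹ * α (I l).swap := by
          rw [← hααq (I l)]
          exact field2 (hα0 (I l)) (hα0 (I l).swap)
        rw [h2]
        refine A.mul_mem _ _ ?_ (hαA _)
        rw [hq, ← inv_pow]
        exact A.pow_mem hpA a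
      rw [h1]
      exact Submodule.zero_mem _
    · have hdich := ord_dichotomy p ha α P hPK hααq hPc A hpA
      have hqinv : q⁻¹ ∉ A := by
        intro h1
        apply hpA
        obtain ⟨a', rfl⟩ := Nat.exists_eq_succ_of_ne_zero ha.ne'
        have h2 : (p : K)⁻¹ = q⁻¹ * (p : K) ^ a' := by
          rw [hq, Nat.succ_eq_add_one, pow_succ, mul_inv_rev, mul_assoc,
            inv_mul_cancel₀ (pow_ne_zero _ hp0), mul_one]
        rw [h2]
        exact A.mul_mem _ _ h1 (A.pow_mem (natCast_mem A p) a')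
      let S : Submodule K (MultilinearMap K (fun _ : Fin m => K ⊗[k] V) K) :=
        Submodule.span K ((Fm b μ) '' (U : Set _))
      -- the space is stable under the symplectic Lie algebra
      have hωK : ∀ x y, bcb K ω (b.baseChange K x) (b.baseChange K y) =
          JJ inv (fun x => algebraMap k K (jj x)) x y := by
        intro x y
        rw [Basis.baseChange_apply, Basis.baseChange_apply, bcb_one, hω, JJ, JJ]
        split_ifs
        · rfl
        · rw [map_zero]
      obtain ⟨Δ₀, hΔ₀, hSΔ⟩ := stable_of_sp (R := bcr ρ K) (χ := bcc χ K) hss (b.baseChange K)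
        (jj := fun x => algebraMap k K (jj x)) hinv hne
        (fun x => by rw [hjj, map_neg]) (fun x => by
          rcases hj1 x with h1 | h1
          · exact Or.inl (by rw [h1, map_one])
          · exact Or.inr (by rw [h1, map_neg, map_one])) (bcb K ω) hωK (bcb_inv ρ χ ω h.sim)
        (fun Δ hΔ P hP => h.schurK Δ hΔ P hP) S (fun x y φ hφ => by
          induction hφ using Submodule.span_induction with
          | zero => rw [map_zero]; exact Submodule.zero_mem _
          | add x y _ _ hx hy => rw [map_add]; exact Submodule.add_mem _ hx hy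
          | smul r x _ hx => rw [map_smul]; exact Submodule.smul_mem _ _ hx
          | mem F hF =>
            obtain ⟨f, hf, rfl⟩ := hF
            rw [Basis.baseChange_apply, Basis.baseChange_apply, SS_bc, Fm_dW]
            refine Submodule.subset_span ⟨_, ?_, rfl⟩
            rw [SS_tv, dW_sub, dW_sub]
            exact U.sub_mem (U.sub_mem (h.der m U hU _ f hf) (h.der m U hU _ f hf))
              (h.der m U hU _ f hf))
      let Λ : (Fin m → Fin g ⊕ Fin g) → K := fun I => ∏ l, α (I l)
      have hΛ : ∀ (φ : MultilinearMap K (fun _ : Fin m => K ⊗[k] V) K) (I : Fin m → Fin g ⊕ Fin g),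
          TT (bcr ρ K γ) φ (fun l => e (I l)) = Λ I * φ (fun l => e (I l)) := by
        intro φ I
        rw [TT_apply]
        simp only [he]
        rw [MultilinearMap.map_smul_univ, smul_eq_mul]
      have hSvan : ∀ φ ∈ S, ∀ I : Fin m → Fin g ⊕ Fin g, nneg α A I ≤ c →
          φ (fun l => e (I l)) = 0 := by
        intro φ hφ I hI
        induction hφ using Submodule.span_induction with
        | zero => rfl
        | add x y _ _ hx hy => rw [add_apply, hx, hy, add_zero]
        | smul r x _ hx => rw [smul_apply, hx, smul_zero]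
        | mem F hF =>
          obtain ⟨f, hf, rfl⟩ := hF
          exact hvan f hf I (inv_prod_mem hααq hαA hq0 hqA I hI)
      let Sm : Multiset K := ((Finset.univ.filter fun I => c + 1 ≤ nneg α A I).val).map Λ
      have hSIJ := closed_mainL hss hPT hS e α γ he hαα A hdich (by rw [hχ]; exact hqA)
        (by rw [hχ]; exact hqinv) (c + 1) (Fin m) S Δ₀ hΔ₀ hSΔ Sm (fun φ hφ => by
          refine Basis.ext_multilinear (fun _ => e) fun I => ?_
          rw [aeval_diag e hΛ]
          by_cases hI : nneg α A I ≤ c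
          · rw [hSvan φ hφ I hI, mul_zero]
            rfl
          · have h1 : ((Sm.map fun β => (X - C β : K[X])).prod).eval (Λ I) = 0 := by
              rw [Polynomial.eval_multiset_prod, Multiset.prod_eq_zero_iff, Multiset.map_map]
              refine Multiset.mem_map.2 ⟨Λ I, Multiset.mem_map.2 ⟨I, ?_, rfl⟩, ?_⟩
              · rw [Finset.mem_val, Finset.mem_filter]
                exact ⟨Finset.mem_univ _, by omega⟩
              · rw [Function.comp_apply, eval_sub, eval_X, eval_C, sub_self]
            rw [h1, zero_mul]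
            rfl) (fun β hβ => by
          obtain ⟨I, hI, rfl⟩ := Multiset.mem_map.1 hβ
          rw [Finset.mem_val, Finset.mem_filter] at hI
          rw [hχ]
          exact prod_mem_of hααq hαA hqA (fun x => (hdich x).2) hq0 I hI.2)
      intro f hf
      exact hSIJ (Submodule.subset_span ⟨f, hf, rfl⟩)
  -- the values
  by_contra hcon
  obtain ⟨π, hπ⟩ : ∃ π : K →ₗ[k] k, π (μ ((1 : K) ⊗ₜ[k] y)) ≠ 0 := by
    by_contra h0
    push Not at h0
    exact hcon ((Module.forall_dual_apply_eq_zero_iff k _).1 h0)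
  rw [YU, Submodule.mem_dualCoannihilator] at hy
  refine hπ (hy (π.comp ((μ.restrictScalars k).comp (TensorProduct.mk k K W 1))) fun f hf => ?_)
  rw [← desc_Fm b]
  exact IJ_desc b ρ χ (c + 1) (Fin m) _ (hIJ f hf) π

end

end Pool.Agent.V5helper93.GTC
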