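import Pool.Agent.V5helper93.GTC.Main3
import Pool.Agent.V5helper93.GTC.Defs
import Pool.Agent.Y128.GT.Fin

/-!
# The Galois coniveau of a tensor product
-/

set_option linter.unusedSectionVars false

namespace Pool.Agent.V5helper93.GTC

open Module TensorProduct Polynomial Pool.Agent.H204R3.SP Pool.Agent.H204R3.GP
  Pool.Agent.W529.Ta Pool.Agent.Y128.GT Pool.Agent.W522.U Pool.Agent.TH776.FM Pool.Agent.TH776.FL

noncomputable section

variable {k V W Γ : Type} [Field k] [CharZero k] [AddCommGroup V] [Module k V]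
  [FiniteDimensional k V] [AddCommGroup W] [Module k W] [FiniteDimensional k W] [Group Γ]
  {ρ : Representation k Γ V} {χ : Γ →* k} {ω : V →ₗ[k] V →ₗ[k] k}
  {τ : Representation k Γ W}

/-- **The values modulo products have small coniveau.** -/
theorem Ctx.comp_mem (h : Ctx ρ χ ω τ) {P : Set (Γ × ℕ × ℕ)}
    (hP : ∀ x ∈ P, x.2.1.Prime ∧ 0 < x.2.2 ∧ OrdinaryFrobenius ρ χ x.2.1 x.2.2 x.1)
    {m c s : ℕ} {U : Submodule k (MultilinearMap k (fun _ : Fin m => V) W)}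
    (hU : ∀ s, ∀ f ∈ U, actW ρ τ s f ∈ U)
    (hE : ∀ x ∈ P, EntireOn x.2.1 x.2.2 (c + s) (actW ρ τ x.1⁻¹) U)
    (l : Dual k W) (hl : ∀ w ∈ coniv τ P s, l w = 0) :
    ∀ f ∈ U, l.compMultilinearMap f ∈ IJ ρ χ (c + 1) (Fin m) := by
  have h1 : YU ρ χ (c + 1) U ≤ coniv τ P s := by
    refine le_sSup ⟨fun g => YU_stable hU g, fun x hx => ?_⟩
    obtain ⟨hp, ha, hγ⟩ := hP x hx
    have : Fact x.2.1.Prime := ⟨hp⟩
    exact h.entire ha hγ hU (hE x hx)
  have h2 : l ∈ (YU ρ χ (c + 1) U).dualAnnihilator := by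
    rw [Submodule.mem_dualAnnihilator]
    exact fun w hw => hl w (h1 hw)
  rw [YU, Subspace.dualCoannihilator_dualAnnihilator_eq] at h2
  exact h2

/-! ### components -/

/-- The components of a form on a power with values in `W`. -/
def LwW {n i : ℕ} (w : Fin i → Fin n) :
    ((Fin n → V) [⋀^Fin i]→ₗ[k] W) →ₗ[k] MultilinearMap k (fun _ : Fin i => V) W where
  toFun f := f.toMultilinearMap.compLinearMap (fun l => LinearMap.single k (fun _ => V) (w l))
  map_add' _ _ := rfl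
  map_smul' _ _ := rfl

theorem LwW_act {n i : ℕ} (w : Fin i → Fin n) (s : Γ) (f : (Fin n → V) [⋀^Fin i]→ₗ[k] W) :
    LwW (k := k) (V := V) (W := W) w (altRep ρ τ n i s f) = actW ρ τ s (LwW (k := k) (V := V) (W := W) w f) := by
  ext v
  change τ s (f (fun l a => ρ s⁻¹ ((Pi.single (w l) (v l) : Fin n → V) a))) =
    τ s (f (fun l => (Pi.single (w l) (ρ s⁻¹ (v l)) : Fin n → V)))
  congr 2
  funext l a
  by_cases h : a = w l
  · subst h
    rw [Pi.single_eq_same, Pi.single_eq_same]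
  · rw [Pi.single_eq_of_ne h, Pi.single_eq_of_ne h, map_zero]

/-- **The alternating forms.** -/
theorem Ctx.alt_mem (h : Ctx ρ χ ω τ) {P : Set (Γ × ℕ × ℕ)}
    (hP : ∀ x ∈ P, x.2.1.Prime ∧ 0 < x.2.2 ∧ OrdinaryFrobenius ρ χ x.2.1 x.2.2 x.1)
    {n i c s : ℕ} {U : Submodule k ((Fin n → V) [⋀^Fin i]→ₗ[k] W)}
    (hU : ∀ g, ∀ f ∈ U, altRep ρ τ n i g f ∈ U)
    (hE : ∀ x ∈ P, EntireOn x.2.1 x.2.2 (c + s) (altRep ρ τ n i x.1⁻¹) U)
    (l : Dual k W) (hl : ∀ w ∈ coniv τ P s, l w = 0) :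
    ∀ f ∈ U, l.compAlternatingMap f ∈ Submodule.span k (divisorProducts ρ χ n i (c + 1)) := by
  intro f hf
  refine alt_IJ χ ρ (l.compAlternatingMap f) ?_
  refine IJ_decomp (piRep (fun _ : Fin n => ρ)) χ ρ χ
    (fun a => LinearMap.single k (fun _ : Fin n => V) a)
    (fun a => LinearMap.proj a) (fun x => ?_) (fun a c B hB => ?_)
    (l.compAlternatingMap f).toMultilinearMap (fun w => ?_)
  · funext a
    rw [Finset.sum_apply]
    change ∑ c, (Pi.single c (x c) : Fin n → V) a = x a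
    rw [Finset.sum_eq_single a]
    · rw [Pi.single_eq_same]
    · intro c _ hc
      rw [Pi.single_eq_of_ne (Ne.symm hc)]
    · intro hn
      exact absurd (Finset.mem_univ _) hn
  · obtain ⟨Δ, hΔ, hB⟩ := hB
    exact ⟨Δ, hΔ, fun s hs u v => hB s hs _ _⟩
  · refine h.comp_mem hP (U := U.map (LwW (k := k) (V := V) (W := W) w)) (c := c) (s := s) ?_ ?_ l hl _
      (Submodule.mem_map_of_mem hf)
    · rintro g _ ⟨u, hu, rfl⟩
      rw [← LwW_act]
      exact Submodule.mem_map_of_mem (hU g u hu)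
    · intro x hx
      obtain ⟨Q, hQm, hQU, hQβ⟩ := hE x hx
      refine ⟨Q, hQm, ?_, hQβ⟩
      rintro _ ⟨u, hu, rfl⟩
      rw [← aeval_inter (altRep ρ τ n i x.1⁻¹) (actW ρ τ x.1⁻¹) (LwW (k := k) (V := V) (W := W) w)
        (LwW_act w x.1⁻¹), hQU u hu, map_zero]

end

end Pool.Agent.V5helper93.GTC
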