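import Pool.Agent.V5helper93.GTC.Low

/-!
# Spaces of forms stable under the symplectic Lie algebra are stable under the group
-/

set_option linter.unusedSectionVars false

namespace Pool.Agent.V5helper93.GTC

open Module TensorProduct Pool.Agent.H204R3.SP Pool.Agent.H204R3.GP Pool.Agent.W529.Ta
  Pool.Agent.Y128.GT Pool.Agent.W522.U

noncomputable section

variable {K X Γ : Type} [Field K] [CharZero K] [AddCommGroup X] [Module K X] [Group Γ]
  {R : Representation K Γ X} {χ : Γ →* K}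

/-- Spaces of forms which are stable under the symplectic Lie algebra are stable under a subgroup of
finite index. -/
theorem stable_of_sp (hss : HasProj R) {ι : Type} [Fintype ι] [DecidableEq ι] (e : Basis ι K X)
    {inv : ι → ι} {jj : ι → K} (hinv : ∀ x, inv (inv x) = x) (hne : ∀ x, inv x ≠ x)
    (hjj : ∀ x, jj (inv x) = -jj x) (hj1 : ∀ x, jj x = 1 ∨ jj x = -1)
    (ω : X →ₗ[K] X →ₗ[K] K) (hω : ∀ x y, ω (e x) (e y) = JJ inv jj x y)
    (hωR : ∀ s u v, ω (R s u) (R s v) = χ s * ω u v)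
    (hschur : ∀ Δ : Subgroup Γ, Δ.FiniteIndex → ∀ P : Module.End K X,
      (∀ s ∈ Δ, ∀ v, P (R s v) = R s (P v)) → ∃ c : K, ∀ v, P v = c • v) {m : ℕ}
    (U : Submodule K (MultilinearMap K (fun _ : Fin m => X) K))
    (hU : ∀ a b, ∀ φ ∈ U, dF (SS ω (e a) (e b)) φ ∈ U) :
    ∃ Δ : Subgroup Γ, Δ.FiniteIndex ∧ ∀ s ∈ Δ, ∀ φ ∈ U, TT (R s) φ ∈ U := by
  classical
  have hj0 : ∀ x, jj x ≠ 0 := by
    intro x
    rcases hj1 x with h | h <;> rw [h] <;> norm_num
  let 𝔤 : Submodule K (Module.End K X) :=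
    { carrier := {Y | ∀ u w, ω (Y u) w + ω u (Y w) = 0}
      add_mem' := by
        intro a b ha hb u w
        have h1 := ha u w
        have h2 := hb u w
        simp only [LinearMap.add_apply, map_add]
        linear_combination h1 + h2
      zero_mem' := by
        intro u w
        simp
      smul_mem' := by
        intro c a ha u w
        have h1 := ha u w
        simp only [LinearMap.smul_apply, map_smul, smul_eq_mul]
        linear_combination c * h1 }
  have hsp : ∀ Y ∈ 𝔤, ∀ u w, ω (Y u) w + ω u (Y w) = 0 := fun Y hY => hY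
  have hbr : ∀ Y ∈ 𝔤, ∀ Z ∈ 𝔤, Y * Z - Z * Y ∈ 𝔤 := by
    intro Y hY Z hZ u w
    simp only [LinearMap.sub_apply, Module.End.mul_apply, map_sub]
    have h1 := hY (Z u) w
    have h2 := hZ u (Y w)
    have h3 := hZ (Y u) w
    have h4 := hY u (Z w)
    linear_combination h1 - h2 - h3 + h4
  have hD : ∀ y, DD e inv y ∈ 𝔤 := by
    intro y
    have h : ω.comp (DD e inv y) + ω.compl₂ (DD e inv y) = 0 := by
      refine e.ext fun a => e.ext fun b => ?_
      rw [LinearMap.add_apply, LinearMap.add_apply, LinearMap.comp_apply, LinearMap.compl₂_apply,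
        DD_basis, DD_basis, map_smul, map_smul, LinearMap.smul_apply, hω, smul_eq_mul, smul_eq_mul,
        JJ]
      split_ifs with hab
      · rw [hab]
        unfold dd
        by_cases h1 : a = y
        · subst h1
          simp [hne, (hne a).symm]
        · by_cases h2 : a = inv y
          · subst h2
            simp [hne, hinv, (hne y).symm]
          · have h3 : inv a ≠ y := fun h => h2 (by rw [← h, hinv])
            have h4 : inv a ≠ inv y := fun h => h1 (by rw [← hinv a, h, hinv])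
            simp [h1, h2, h3, h4]
      · simp
    intro u w
    exact congrArg (fun f : X →ₗ[K] X →ₗ[K] K => f u w) h
  have hconj : ∀ (s : Γ) (Y : Module.End K X), Y ∈ 𝔤 → R s * Y * R s⁻¹ ∈ 𝔤 := by
    intro s Y hY u w
    have h0 : ∀ u, R s (R s⁻¹ u) = u := fun u => rho_inv' R s u
    have h1 := hY (R s⁻¹ u) (R s⁻¹ w)
    change ω (R s (Y (R s⁻¹ u))) w + ω u (R s (Y (R s⁻¹ w))) = 0
    have h2 : ω (R s (Y (R s⁻¹ u))) w = χ s * ω (Y (R s⁻¹ u)) (R s⁻¹ w) := by
      rw [← hωR, h0]
    have h3 : ω u (R s (Y (R s⁻¹ w))) = χ s * ω (R s⁻¹ u) (Y (R s⁻¹ w)) := by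
      rw [← hωR, h0]
    rw [h2, h3]
    linear_combination χ s * h1
  have hcomm : ∀ Δ : Subgroup Γ, Δ.FiniteIndex → ∀ P : Module.End K X,
      (∀ s ∈ Δ, ∀ v, P (R s v) = R s (P v)) → ∀ Y ∈ 𝔤, ∀ v, Y (P v) = P (Y v) := by
    intro Δ hΔ P hP Y _ v
    obtain ⟨c, hc⟩ := hschur Δ hΔ P hP
    rw [hc, hc, map_smul]
  obtain ⟨P, hP1, hP2, hP3⟩ := proj_forms e 𝔤 hbr hD hinv hne hjj hj0 ω hω hsp R hconj hss hcomm
    hj1 U fun a b _ => hU a b
  have hSS : ∀ a b, SS ω (e a) (e b) ∈ 𝔤 := by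
    intro a b
    have hanti : ∀ u v, ω u v = - ω v u := by
      have h : ω = -ω.flip := by
        refine e.ext fun x => e.ext fun y => ?_
        rw [LinearMap.neg_apply, LinearMap.neg_apply, LinearMap.flip_apply, hω, hω, JJ, JJ]
        by_cases h : y = inv x
        · subst h
          rw [if_pos rfl, if_pos (hinv x).symm, hjj, neg_neg]
        · rw [if_neg h, if_neg (fun h' => h (by rw [h', hinv])), neg_zero]
      intro u v
      exact congrArg (fun f : X →ₗ[K] X →ₗ[K] K => f u v) h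
    intro u w
    rw [SS_apply, SS_apply]
    simp only [map_add, map_smul, LinearMap.add_apply, LinearMap.smul_apply, smul_eq_mul]
    rw [hanti u (e a), hanti u (e b)]
    ring
  have h1 := killed_mem e 𝔤 hbr hD hinv hne hjj hj0 ω hω hsp R χ hconj hss hcomm hωR
    (formOf ω m P) (fun a b h => kills_formOf ω m P (fun u w => hsp _ h u w) (fun φ => hP3 a b h φ))
  obtain ⟨Δ', hΔ', hP4⟩ := comm_of_isTate e hinv hj0 ω hω R χ hωR m P (isTate_of_PT R χ h1)
  refine ⟨Δ', hΔ', fun s hs φ hφ => ?_⟩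
  have h2 := hP4 s hs φ
  rw [hP2 φ hφ] at h2
  rw [← h2]
  exact hP1 _

end

end Pool.Agent.V5helper93.GTC
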