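import Pool.Agent.V5helper93.GTC.Sp

/-!
# Forms with values in a representation
-/

set_option linter.unusedSectionVars false

namespace Pool.Agent.V5helper93.GTC

open Module TensorProduct Polynomial Pool.Agent.H204R3.SP Pool.Agent.H204R3.GP
  Pool.Agent.W529.Ta Pool.Agent.Y128.GT Pool.Agent.W522.U

noncomputable section

section dW

variable {k V W : Type} [Field k] [AddCommGroup V] [Module k V] [AddCommGroup W] [Module k W]
  {κ : Type} [Fintype κ] [DecidableEq κ]

/-- The derivation of a form with values in `W`. -/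
def dW (Y : Module.End k V) : Module.End k (MultilinearMap k (fun _ : κ => V) W) :=
  ∑ k : κ, MultilinearMap.compLinearMapₗ (fun l => if l = k then Y else LinearMap.id)

theorem dW_apply (Y : Module.End k V) (φ : MultilinearMap k (fun _ : κ => V) W) (v : κ → V) :
    dW Y φ v = ∑ k, φ (Function.update v k (Y (v k))) := by
  unfold dW
  rw [LinearMap.sum_apply, sum_apply]
  refine Finset.sum_congr rfl fun k _ => ?_
  change φ (fun l => (if l = k then Y else LinearMap.id) (v l)) = _
  congr 1
  funext l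
  by_cases hl : l = k
  · subst hl
    rw [Function.update_self, if_pos rfl]
  · rw [Function.update_of_ne hl, if_neg hl]
    rfl

theorem dW_add (Y Z : Module.End k V) (φ : MultilinearMap k (fun _ : κ => V) W) :
    dW (Y + Z) φ = dW Y φ + dW Z φ := by
  ext v
  rw [add_apply, dW_apply, dW_apply, dW_apply, ← Finset.sum_add_distrib]
  refine Finset.sum_congr rfl fun k _ => ?_
  rw [LinearMap.add_apply, MultilinearMap.map_update_add]

theorem dW_smul (c : k) (Y : Module.End k V) (φ : MultilinearMap k (fun _ : κ => V) W) :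
    dW (c • Y) φ = c • dW Y φ := by
  ext v
  rw [smul_apply, dW_apply, dW_apply, Finset.smul_sum]
  refine Finset.sum_congr rfl fun k _ => ?_
  rw [LinearMap.smul_apply, MultilinearMap.map_update_smul]

theorem dW_sub (Y Z : Module.End k V) (φ : MultilinearMap k (fun _ : κ => V) W) :
    dW (Y - Z) φ = dW Y φ - dW Z φ := by
  rw [sub_eq_add_neg Y Z, dW_add, ← neg_one_smul k Z, dW_smul, neg_one_smul, sub_eq_add_neg]

variable {Γ : Type} [Group Γ] (ρ : Representation k Γ V) (τ : Representation k Γ W)

/-- The action of the group on the forms with values in `W`. -/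
def actW (s : Γ) : Module.End k (MultilinearMap k (fun _ : κ => V) W) where
  toFun f := (τ s).compMultilinearMap (f.compLinearMap fun _ => ρ s⁻¹)
  map_add' f g := by
    ext v
    exact map_add (τ s) _ _
  map_smul' c f := by
    ext v
    exact map_smul (τ s) c _

theorem actW_apply (s : Γ) (f : MultilinearMap k (fun _ : κ => V) W) (v : κ → V) :
    actW ρ τ s f v = τ s (f fun l => ρ s⁻¹ (v l)) := rfl

end dW

section bc

variable {k K V W : Type} [Field k] [Field K] [CharZero k] [CharZero K] [Algebra k K]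
  [AddCommGroup V] [Module k V] [AddCommGroup W] [Module k W] {ν : Type} [Fintype ν]
  [DecidableEq ν] (b : Basis ν k V) {κ : Type} [Fintype κ] [DecidableEq κ]

/-- The scalar form attached to a functional and a form with values in `W`. -/
def Fm (μ : Dual K (K ⊗[k] W)) : MultilinearMap k (fun _ : κ => V) W →ₗ[k]
    MultilinearMap K (fun _ : κ => K ⊗[k] V) K where
  toFun f := mkForm (b.baseChange K) fun I => μ (1 ⊗ₜ[k] f fun l => b (I l))
  map_add' f g := by
    refine Basis.ext_multilinear (fun _ => b.baseChange K) fun I => ?_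
    rw [add_apply, mkForm_basis, mkForm_basis, mkForm_basis,
      add_apply, tmul_add, map_add]
  map_smul' c f := by
    refine Basis.ext_multilinear (fun _ => b.baseChange K) fun I => ?_
    rw [smul_apply, RingHom.id_apply, mkForm_basis, mkForm_basis,
      smul_apply, tmul_smul, ← algebraMap_smul K c (1 ⊗ₜ[k] _ : K ⊗[k] W), map_smul,
      algebraMap_smul]

/-- Forms over the extension which agree on the vectors of `V`. -/
theorem ext_one {F G : MultilinearMap K (fun _ : κ => K ⊗[k] V) K}
    (h : ∀ v : κ → V, F (fun l => 1 ⊗ₜ[k] v l) = G (fun l => 1 ⊗ₜ[k] v l)) : F = G := by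
  let w := Basis.ofVectorSpace k V
  refine Basis.ext_multilinear (fun _ => w.baseChange K) fun I => ?_
  have h1 : (fun l => w.baseChange K (I l)) = fun l => (1 : K) ⊗ₜ[k] w (I l) :=
    funext fun l => Basis.baseChange_apply _ _ _
  rw [h1]
  exact h _

theorem Fm_one (μ : Dual K (K ⊗[k] W)) (f : MultilinearMap k (fun _ : κ => V) W) (v : κ → V) :
    Fm b μ f (fun l => 1 ⊗ₜ[k] v l) = μ (1 ⊗ₜ[k] f v) := by
  let G : MultilinearMap k (fun _ : κ => V) K :=
    ((Fm b μ f).restrictScalars k).compLinearMap (fun _ => TensorProduct.mk k K V 1)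
  let G' : MultilinearMap k (fun _ : κ => V) K :=
    ((μ.restrictScalars k).comp (TensorProduct.mk k K W 1)).compMultilinearMap f
  have h : G = G' := by
    refine Basis.ext_multilinear (fun _ => b) fun I => ?_
    change mkForm (b.baseChange K) (fun I => μ (1 ⊗ₜ[k] f fun l => b (I l)))
      (fun l => 1 ⊗ₜ[k] b (I l)) = μ (1 ⊗ₜ[k] f fun l => b (I l))
    have h1 : (fun l => (1 : K) ⊗ₜ[k] b (I l)) = fun l => b.baseChange K (I l) :=
      funext fun l => (Basis.baseChange_apply _ _ _).symm
    rw [h1, mkForm_basis]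
  exact congrArg (fun g => g v) h

theorem Fm_eq {μ : Dual K (K ⊗[k] W)} {f : MultilinearMap k (fun _ : κ => V) W}
    {F : MultilinearMap K (fun _ : κ => K ⊗[k] V) K}
    (h : ∀ v : κ → V, F (fun l => 1 ⊗ₜ[k] v l) = μ (1 ⊗ₜ[k] f v)) : F = Fm b μ f :=
  ext_one fun v => by rw [h, Fm_one]

theorem Fm_add (μ μ' : Dual K (K ⊗[k] W)) (f : MultilinearMap k (fun _ : κ => V) W) :
    Fm b (μ + μ') f = Fm b μ f + Fm b μ' f :=
  (Fm_eq b fun v => by
    rw [add_apply, Fm_one, Fm_one]
    rfl).symm

theorem Fm_smul (c : K) (μ : Dual K (K ⊗[k] W)) (f : MultilinearMap k (fun _ : κ => V) W) :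
    Fm b (c • μ) f = c • Fm b μ f :=
  (Fm_eq b fun v => by
    rw [smul_apply, Fm_one]
    rfl).symm

theorem Fm_dW (Y : Module.End k V) (μ : Dual K (K ⊗[k] W))
    (f : MultilinearMap k (fun _ : κ => V) W) :
    dF (Y.baseChange K) (Fm b μ f) = Fm b μ (dW Y f) := by
  refine Fm_eq b fun v => ?_
  rw [dF_apply, dW_apply, tmul_sum, map_sum]
  refine Finset.sum_congr rfl fun i _ => ?_
  rw [LinearMap.baseChange_tmul, ← Fm_one b]
  congr 1
  funext l
  by_cases h : l = i
  · subst h
    rw [Function.update_self, Function.update_self]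
  · rw [Function.update_of_ne h, Function.update_of_ne h]

variable {Γ : Type} [Group Γ] (ρ : Representation k Γ V) (τ : Representation k Γ W)

theorem Fm_actW (s : Γ) (μ : Dual K (K ⊗[k] W)) (f : MultilinearMap k (fun _ : κ => V) W) :
    Fm b μ (actW ρ τ s f) =
      TT (bcr ρ K s⁻¹) (Fm b (((τ s).baseChange K).dualMap μ) f) := by
  refine (Fm_eq b fun v => ?_).symm
  rw [TT_apply]
  have h1 : (fun l => bcr ρ K s⁻¹ ((1 : K) ⊗ₜ[k] v l)) = fun l => (1 : K) ⊗ₜ[k] (ρ s⁻¹ (v l)) := rfl
  rw [h1, Fm_one, actW_apply, LinearMap.dualMap_apply, LinearMap.baseChange_tmul]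

theorem desc_Fm (π : K →ₗ[k] k) (μ : Dual K (K ⊗[k] W))
    (f : MultilinearMap k (fun _ : κ => V) W) : desc π (Fm b μ f) =
      (π.comp ((μ.restrictScalars k).comp (TensorProduct.mk k K W 1))).compMultilinearMap f := by
  ext v
  rw [desc_apply, Fm_one]
  rfl

/-- The values on a basis of eigenvectors. -/
theorem Fm_eig {ι : Type} [Fintype ι] [DecidableEq ι] (e : Basis ι K (K ⊗[k] V)) (s : Γ)
    {α : ι → K} (he : ∀ x, bcr ρ K s⁻¹ (e x) = α x • e x) (μ : Dual K (K ⊗[k] W))
    (f : MultilinearMap k (fun _ : κ => V) W) (I : κ → ι) :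
    Fm b μ (actW ρ τ s f) (fun l => e (I l)) =
      Fm b ((∏ l, α (I l)) • ((τ s).baseChange K).dualMap μ) f (fun l => e (I l)) := by
  rw [Fm_actW, TT_apply]
  simp only [he]
  rw [MultilinearMap.map_smul_univ, Fm_smul]
  rfl

/-- Polynomials in the operators. -/
theorem Fm_poly {ι : Type} [Fintype ι] [DecidableEq ι] (e : Basis ι K (K ⊗[k] V)) (s : Γ)
    {α : ι → K} (he : ∀ x, bcr ρ K s⁻¹ (e x) = α x • e x) (P : k[X]) (μ : Dual K (K ⊗[k] W))
    (f : MultilinearMap k (fun _ : κ => V) W) (I : κ → ι) :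
    Fm b μ (aeval (actW ρ τ s) P f) (fun l => e (I l)) =
      Fm b (aeval ((∏ l, α (I l)) • ((τ s).baseChange K).dualMap) (P.map (algebraMap k K)) μ) f
        (fun l => e (I l)) := by
  set D : Module.End K (Dual K (K ⊗[k] W)) := (∏ l, α (I l)) • ((τ s).baseChange K).dualMap
    with hD
  have h1 : ∀ (n : ℕ) (μ : Dual K (K ⊗[k] W)), Fm b μ ((actW ρ τ s ^ n) f) (fun l => e (I l)) =
      Fm b ((D ^ n) μ) f (fun l => e (I l)) := by
    intro n
    induction n with
    | zero => intro μ; rfl
    | succ n ih =>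
      intro μ
      rw [pow_succ', Module.End.mul_apply, Fm_eig b ρ τ e s he, ih, pow_succ, Module.End.mul_apply]
      rfl
  induction P using Polynomial.induction_on' with
  | add P Q hP hQ =>
    rw [Polynomial.map_add, map_add, map_add, LinearMap.add_apply, LinearMap.add_apply, map_add,
      add_apply, hP, hQ, Fm_add]
    rfl
  | monomial n a =>
    rw [Polynomial.map_monomial, Polynomial.aeval_monomial, Polynomial.aeval_monomial,
      Module.End.mul_apply, Module.End.mul_apply, Module.algebraMap_end_apply,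
      Module.algebraMap_end_apply, map_smul, smul_apply, h1, Fm_smul,
      smul_apply, smul_eq_mul, Algebra.smul_def]

end bc

end

end Pool.Agent.V5helper93.GTC
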